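import Pool.Agent.Helper36_RF.Abs

/-!
# Generators of one-parameter isometry groups
-/

set_option maxSynthPendingDepth 3
set_option autoImplicit false

open Set Filter Topology MeasureTheory

namespace Pool.Agent.RF.H3

variable {𝓔 : Type} [NormedAddCommGroup 𝓔] [NormedSpace ℝ 𝓔] {Γ A : Type} [Fintype A]

section
variable (R : RotSys 𝓔 Γ A)

theorem T_neg (g : Γ) (s : ℝ) (f : 𝓔) : R.T g (-s) (R.T g s f) = f := by
  rw [← R.T_add, neg_add_cancel, R.T_zero]

theorem T_comm (g : Γ) (s t : ℝ) (f : 𝓔) : R.T g s (R.T g t f) = R.T g t (R.T g s f) := by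
  rw [← R.T_add, ← R.T_add, add_comm]

theorem T_sub_norm (g : Γ) (s : ℝ) (f h : 𝓔) : ‖R.T g s f - R.T g s h‖ = ‖f - h‖ := by
  rw [← map_sub, R.norm_T]

variable {R}

/-- commuting operators preserve the domain of the generator -/
theorem hasGen_map {g : Γ} {f f' : 𝓔} (h : R.HasGen g f f') (B : 𝓔 →L[ℝ] 𝓔)
    (hB : ∀ s, B (R.T g s f) = R.T g s (B f)) : R.HasGen g (B f) (B f') := by
  have h1 : HasDerivAt (fun s => B (R.T g s f)) (B f') 0 :=
    B.hasFDerivAt.comp_hasDerivAt (0 : ℝ) h
  simp only [hB] at h1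
  exact h1

theorem hasDerivAt_T {g : Γ} {f f' : 𝓔} (h : R.HasGen g f f') (s : ℝ) :
    HasDerivAt (fun s => R.T g s f) (R.T g s f') s := by
  have h1 : HasDerivAt (fun r => R.T g s (R.T g r f)) (R.T g s f') 0 :=
    (R.T g s).hasFDerivAt.comp_hasDerivAt (0 : ℝ) h
  have h2 : (fun r => R.T g s (R.T g r f)) = fun r => R.T g (s + r) f := by
    funext r; rw [R.T_add]
  rw [h2] at h1
  have h4 : HasDerivAt (fun r => R.T g (s + r) f) (R.T g s f') (s - s) := by
    rwa [sub_self]
  have h5 := HasDerivAt.comp_sub_const s s h4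
  refine h5.congr_of_eventuallyEq (Eventually.of_forall fun x => ?_)
  simp

theorem hasGen_unique {g : Γ} {f f' f'' : 𝓔} (h : R.HasGen g f f') (h' : R.HasGen g f f'') :
    f' = f'' := HasDerivAt.unique h h'

theorem hasGen_add {g : Γ} {f f' h h' : 𝓔} (h1 : R.HasGen g f f') (h2 : R.HasGen g h h') :
    R.HasGen g (f + h) (f' + h') := by
  have := HasDerivAt.add h1 h2
  refine this.congr_of_eventuallyEq (Eventually.of_forall fun x => ?_)
  simp

theorem hasGen_sub {g : Γ} {f f' h h' : 𝓔} (h1 : R.HasGen g f f') (h2 : R.HasGen g h h') :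
    R.HasGen g (f - h) (f' - h') := by
  have := HasDerivAt.sub h1 h2
  refine this.congr_of_eventuallyEq (Eventually.of_forall fun x => ?_)
  simp

theorem hasGen_smul {g : Γ} {f f' : 𝓔} (h1 : R.HasGen g f f') (c : ℝ) :
    R.HasGen g (c • f) (c • f') := by
  have := HasDerivAt.const_smul c h1
  refine this.congr_of_eventuallyEq (Eventually.of_forall fun x => ?_)
  simp

/-- integral form -/
theorem hasGen_integral [CompleteSpace 𝓔] {g : Γ} {f f' : 𝓔} (h : R.HasGen g f f') (s : ℝ) :
    R.T g s f = f + ∫ r in (0 : ℝ)..s, R.T g r f' := by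
  have h1 := intervalIntegral.integral_eq_sub_of_hasDerivAt
    (f := fun s => R.T g s f) (f' := fun s => R.T g s f') (a := 0) (b := s)
    (fun r _ => hasDerivAt_T h r) ((R.cont_T g f').intervalIntegrable _ _)
  rw [h1, R.T_zero]
  abel

theorem hasGen_of_integral [CompleteSpace 𝓔] {g : Γ} {f f' : 𝓔}
    (h : ∀ s, R.T g s f = f + ∫ r in (0 : ℝ)..s, R.T g r f') : R.HasGen g f f' := by
  have h1 : HasDerivAt (fun s => ∫ r in (0 : ℝ)..s, R.T g r f') (R.T g 0 f') 0 :=
    ((R.cont_T g f').integral_hasStrictDerivAt 0 0).hasDerivAt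
  rw [R.T_zero] at h1
  have h2 := h1.const_add f
  exact h2.congr_of_eventuallyEq (Eventually.of_forall fun s => h s)

/-- the generators are closed -/
theorem hasGen_of_tendsto [CompleteSpace 𝓔] {g : Γ} {f f' : 𝓔} {u u' : ℕ → 𝓔}
    (h : ∀ n, R.HasGen g (u n) (u' n)) (hu : Tendsto u atTop (𝓝 f))
    (hu' : Tendsto u' atTop (𝓝 f')) : R.HasGen g f f' := by
  refine hasGen_of_integral fun s => ?_
  have h1 : Tendsto (fun n => R.T g s (u n)) atTop (𝓝 (R.T g s f)) :=
    ((R.T g s).continuous.tendsto f).comp hu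
  have h2 : Tendsto (fun n => ∫ r in (0 : ℝ)..s, R.T g r (u' n)) atTop
      (𝓝 (∫ r in (0 : ℝ)..s, R.T g r f')) := by
    rw [tendsto_iff_norm_sub_tendsto_zero]
    have h3 : ∀ n, ‖(∫ r in (0 : ℝ)..s, R.T g r (u' n)) - ∫ r in (0 : ℝ)..s, R.T g r f'‖ ≤
        ‖u' n - f'‖ * |s - 0| := by
      intro n
      rw [← intervalIntegral.integral_sub ((R.cont_T g _).intervalIntegrable _ _)
        ((R.cont_T g _).intervalIntegrable _ _)]
      refine intervalIntegral.norm_integral_le_of_norm_le_const fun r _ => ?_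
      rw [T_sub_norm]
    have h4 : Tendsto (fun n => ‖u' n - f'‖ * |s - 0|) atTop (𝓝 0) := by
      have := (tendsto_iff_norm_sub_tendsto_zero.mp hu').mul_const |s - 0|
      simpa using this
    exact squeeze_zero (fun n => norm_nonneg _) h3 h4
  have h5 : Tendsto (fun n => u n + ∫ r in (0 : ℝ)..s, R.T g r (u' n)) atTop
      (𝓝 (f + ∫ r in (0 : ℝ)..s, R.T g r f')) := hu.add h2
  refine tendsto_nhds_unique h1 (h5.congr fun n => ?_)
  exact (hasGen_integral (h n) s).symm

end

/-- a product rule for strongly continuous families of contractions -/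
theorem hasDerivWithinAt_semigroup {S : ℝ → 𝓔 →L[ℝ] 𝓔}
    (hS : ∀ t, 0 ≤ t → ∀ f, ‖S t f‖ ≤ ‖f‖) (hc : ∀ f, ContinuousOn (fun t => S t f) (Ici 0))
    {t r : ℝ} (hr : r < t) {W : ℝ → 𝓔} {W' q' : 𝓔} (hW : HasDerivWithinAt W W' (Ici r) r)
    (hq : HasDerivWithinAt (fun h => S (t - h) (W r)) q' (Ici r) r) :
    HasDerivWithinAt (fun h => S (t - h) (W h)) (S (t - r) W' + q') (Ici r) r := by
  have h1 : HasDerivWithinAt (fun h => S (t - h) (W h - W r)) (S (t - r) W') (Ici r) r := by
    rw [hasDerivWithinAt_iff_tendsto_slope]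
    rw [hasDerivWithinAt_iff_tendsto_slope] at hW
    have h2 : Tendsto (fun h => S (t - h) W') (𝓝[Ici r \ {r}] r) (𝓝 (S (t - r) W')) := by
      have h3 := (hc W').continuousWithinAt (x := t - r) (by simp; linarith)
      have h4 : ContinuousAt (fun t => S t W') (t - r) :=
        h3.continuousAt (Ici_mem_nhds (by linarith))
      have h5 : ContinuousAt (fun h : ℝ => t - h) r := by fun_prop
      have h6 : ContinuousAt (fun h => S (t - h) W') r := ContinuousAt.comp (f := fun h : ℝ => t - h) h4 h5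
      exact h6.tendsto.mono_left nhdsWithin_le_nhds
    have h7 : Tendsto (fun h => S (t - h) (slope W r h - W')) (𝓝[Ici r \ {r}] r) (𝓝 0) := by
      rw [tendsto_zero_iff_norm_tendsto_zero]
      have h8 := tendsto_iff_norm_sub_tendsto_zero.mp hW
      refine squeeze_zero' (Eventually.of_forall fun _ => norm_nonneg _) ?_ h8
      have h9 : ∀ᶠ h in 𝓝[Ici r \ {r}] r, h < t := nhdsWithin_le_nhds (eventually_lt_nhds hr)
      filter_upwards [h9] with h hh
      exact hS _ (by linarith) _
    have h10 := h7.add h2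
    rw [zero_add] at h10
    refine h10.congr fun h => ?_
    rw [← map_add, sub_add_cancel]
    simp only [slope, vsub_eq_sub, sub_self, map_zero, sub_zero, map_smul]
  have h3 := h1.add hq
  refine h3.congr (fun h _ => ?_) ?_
  · simp only [Pi.add_apply, map_sub]; abel
  · simp

end Pool.Agent.RF.H3
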