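import Pool.Agent.Helper36_RF.Rot
import Pool.Agent.Helper3_RF.Basic

/-!
# Bounded operators commuting with the groups commute with the heat semigroup
-/

set_option maxSynthPendingDepth 3
set_option autoImplicit false

open Set Filter Topology MeasureTheory

namespace Pool.Agent.RF.H3

theorem heatComm : HeatCommStatement := by
  intro 𝓔 _ _ _ Γ A _ R H B hB
  -- first on vectors in the range of the semigroup
  have key : ∀ ε, 0 < ε → ∀ f : 𝓔, ∀ t, 0 ≤ t → B (H.S t (H.S ε f)) = H.S t (B (H.S ε f)) := by
    intro ε hε f t ht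
    set v := H.S ε f with hv
    set va : A → 𝓔 := fun a => H.Y a ε f with hva
    set vaa : A → 𝓔 := fun a => H.Y a (ε / 2) (H.Y a (ε / 2) f) with hvaa
    have g1 : ∀ a, R.HasGen (R.J a) v (va a) := fun a => H.gen_Y a ε hε f
    have g2 : ∀ a, R.HasGen (R.J a) (va a) (vaa a) := by
      intro a
      have h1 := (H.Y_add a (ε / 2) (ε / 2) (by positivity) (by positivity) f).2
      rw [add_halves] at h1
      simp only [hva, hvaa]
      rw [h1]
      exact H.gen_Y a (ε / 2) (by positivity) _
    -- the two commuting properties at a later time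
    have g3 : ∀ r, 0 ≤ r → ∀ a, R.HasGen (R.J a) (B (H.S r v)) (B (H.S r (va a))) := by
      intro r hr a
      exact hasGen_map (hasGen_map (g1 a) (H.S r) fun s => H.comm r hr _ s _) B
        fun s => hB _ s _
    have g4 : ∀ r, 0 ≤ r → ∀ a, R.HasGen (R.J a) (B (H.S r (va a))) (B (H.S r (vaa a))) := by
      intro r hr a
      exact hasGen_map (hasGen_map (g2 a) (H.S r) fun s => H.comm r hr _ s _) B
        fun s => hB _ s _
    have hW : ∀ r, 0 ≤ r → HasDerivWithinAt (fun r => B (H.S r v))
        (B (H.S r (∑ a, vaa a))) (Ici 0) r := by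
      intro r hr
      exact B.hasFDerivAt.comp_hasDerivWithinAt r (H.heat v va vaa g1 g2 r hr)
    have hder : ∀ r ∈ Ico 0 t, HasDerivWithinAt (fun h => H.S (t - h) (B (H.S h v))) 0 (Ici r) r := by
      rintro r ⟨hr0, hrt⟩
      have h1 := (hW r hr0).mono (Ici_subset_Ici.mpr hr0)
      have h2 := H.heat (B (H.S r v)) _ _ (g3 r hr0) (g4 r hr0) (t - r) (by linarith)
      have h3 : HasDerivAt (fun t => H.S t (B (H.S r v)))
          (H.S (t - r) (∑ a, B (H.S r (vaa a)))) (t - r) :=
        h2.hasDerivAt (Ici_mem_nhds (by linarith))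
      have h4 : HasDerivAt (fun h => H.S (t - h) (B (H.S r v)))
          (-(H.S (t - r) (∑ a, B (H.S r (vaa a))))) r := HasDerivAt.comp_const_sub t r h3
      have h5 := hasDerivWithinAt_semigroup (S := H.S) H.norm_S H.cont hrt h1
        h4.hasDerivWithinAt
      refine h5.congr_deriv ?_
      rw [map_sum, map_sum, add_neg_cancel]
    have hcont : ContinuousOn (fun h => H.S (t - h) (B (H.S h v))) (Icc 0 t) := by
      have hw : ContinuousOn (fun h => B (H.S h v)) (Icc 0 t) :=
        B.continuous.comp_continuousOn ((H.cont v).mono Icc_subset_Ici_self)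
      intro r hr
      have h1 : Tendsto (fun h => H.S (t - h) (B (H.S r v))) (𝓝[Icc 0 t] r)
          (𝓝 (H.S (t - r) (B (H.S r v)))) := by
        have h2 : ContinuousOn (fun h => H.S (t - h) (B (H.S r v))) (Icc 0 t) := by
          refine (H.cont (B (H.S r v))).comp (by fun_prop) ?_
          intro h hh
          simp only [mem_Ici]
          linarith [hh.2]
        exact h2 r hr
      have h3 : Tendsto (fun h => H.S (t - h) (B (H.S h v) - B (H.S r v))) (𝓝[Icc 0 t] r)
          (𝓝 0) := by
        rw [tendsto_zero_iff_norm_tendsto_zero]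
        have h4 := tendsto_iff_norm_sub_tendsto_zero.mp (hw r hr)
        refine squeeze_zero' (Eventually.of_forall fun _ => norm_nonneg _) ?_ h4
        filter_upwards [self_mem_nhdsWithin] with h hh
        exact H.norm_S _ (by linarith [hh.2]) _
      have h5 := h3.add h1
      rw [zero_add] at h5
      refine h5.congr fun h => ?_
      rw [← map_add, sub_add_cancel]
    have hconst := constant_of_has_deriv_right_zero hcont hder
    have h6 := hconst t ⟨ht, le_rfl⟩
    simp only [sub_self, sub_zero] at h6
    rw [H.S_zero, H.S_zero] at h6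
    exact h6
  intro t ht f
  have h1 : Tendsto (fun ε => B (H.S t (H.S ε f))) (𝓝[>] 0) (𝓝 (B (H.S t f))) := by
    have h2 : Tendsto (fun ε => H.S ε f) (𝓝[>] 0) (𝓝 f) := by
      have h3 := (H.cont f 0 self_mem_Ici).tendsto
      rw [H.S_zero] at h3
      exact h3.mono_left (nhdsWithin_mono _ Ioi_subset_Ici_self)
    exact ((B.continuous.comp (H.S t).continuous).tendsto f).comp h2
  have h2 : Tendsto (fun ε => H.S t (B (H.S ε f))) (𝓝[>] 0) (𝓝 (H.S t (B f))) := by
    have h2 : Tendsto (fun ε => H.S ε f) (𝓝[>] 0) (𝓝 f) := by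
      have h3 := (H.cont f 0 self_mem_Ici).tendsto
      rw [H.S_zero] at h3
      exact h3.mono_left (nhdsWithin_mono _ Ioi_subset_Ici_self)
    exact (((H.S t).continuous.comp B.continuous).tendsto f).comp h2
  refine tendsto_nhds_unique h1 (h2.congr' ?_)
  filter_upwards [self_mem_nhdsWithin] with ε hε
  exact (key ε hε f t ht).symm

end Pool.Agent.RF.H3
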