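import Pool.Agent.Helper3_RF.Levels

/-!
# Existence of the heat semigroup
-/

set_option maxSynthPendingDepth 3
set_option autoImplicit false

open Set Filter Topology MeasureTheory

namespace Pool.Agent.RF.H3

section
variable {𝓔 : Type} [NormedAddCommGroup 𝓔] [NormedSpace ℝ 𝓔] {Γ A : Type} [Fintype A]
variable (R : RotSys 𝓔 Γ A)

theorem dense_ind (p : 𝓔 → Prop) (hcl : IsClosed {f | p f}) (h : ∀ k (v : R.F k), p v) (f : 𝓔) :
    p f := by
  have h1 : (⋃ k, (R.F k : Set 𝓔)) ⊆ {f | p f} := by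
    intro x hx
    obtain ⟨k, hk⟩ := mem_iUnion.mp hx
    exact h k ⟨x, hk⟩
  have h2 := closure_minimal h1 hcl
  exact h2 (R.F_dense f)

theorem exists_seq (f : 𝓔) : ∃ (k : ℕ → ℕ) (v : ∀ n, R.F (k n)),
    Tendsto (fun n => (v n : 𝓔)) atTop (𝓝 f) := by
  obtain ⟨x, hx, hlim⟩ := mem_closure_iff_seq_limit.mp (R.F_dense f)
  have h1 : ∀ n, ∃ k, x n ∈ R.F k := fun n => mem_iUnion.mp (hx n)
  choose k hk using h1
  exact ⟨k, fun n => ⟨x n, hk n⟩, hlim⟩

theorem exists_S [CompleteSpace 𝓔] (t : ℝ) : ∃ S : 𝓔 →L[ℝ] 𝓔, 0 ≤ t →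
    (∀ k (v : R.F k), S v = SL R k t v) ∧ ∀ f, ‖S f‖ ≤ ‖f‖ := by
  by_cases ht : 0 ≤ t
  · obtain ⟨S, h1, h2⟩ := exists_extension R
      (fun k => (R.F k).subtype ∘ₗ (SL R k t : R.F k →ₗ[ℝ] R.F k))
      (fun j k h v => by
        have := incl_SL R h t v
        exact congrArg Subtype.val this.symm) 1
      (fun k v => by
        rw [one_mul]
        exact (bern_level R k t ht v).1)
    exact ⟨S, fun _ => ⟨h1, fun f => by simpa using h2 f⟩⟩
  · exact ⟨0, fun h => absurd h ht⟩

theorem exists_Y [CompleteSpace 𝓔] (a : A) (t : ℝ) : ∃ Y : 𝓔 →L[ℝ] 𝓔, 0 < t →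
    (∀ k (v : R.F k), Y v = XL R k (R.J a) (SL R k t v)) ∧ ∀ f, ‖Y f‖ ≤ ‖f‖ / √(2 * t) := by
  by_cases ht : 0 < t
  · obtain ⟨Y, h1, h2⟩ := exists_extension R
      (fun k => (R.F k).subtype ∘ₗ (XL R k (R.J a) : R.F k →ₗ[ℝ] R.F k) ∘ₗ
        (SL R k t : R.F k →ₗ[ℝ] R.F k))
      (fun j k h v => by
        have h1 := incl_XL R h (R.J a) (SL R j t v)
        rw [incl_SL] at h1
        exact congrArg Subtype.val h1.symm) (√(2 * t))⁻¹
      (fun k v => by
        have h3 := (bern_level R k t ht.le v).2 a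
        have h4 : ‖XL R k (R.J a) (SL R k t v)‖ ^ 2 ≤ ((√(2 * t))⁻¹ * ‖v‖) ^ 2 := by
          rw [mul_pow, inv_pow, Real.sq_sqrt (by positivity), le_inv_mul_iff₀ (by positivity)]
          exact h3
        exact (pow_le_pow_iff_left₀ (norm_nonneg _) (by positivity) two_ne_zero).mp h4)
    refine ⟨Y, fun _ => ⟨h1, fun f => ?_⟩⟩
    rw [div_eq_inv_mul]
    exact h2 f
  · exact ⟨0, fun h => absurd h ht⟩

end

theorem heat : HeatStatement := by
  intro 𝓔 _ _ _ Γ A _ R
  choose S hS using exists_S R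
  choose Y hY using exists_Y R
  have hS1 : ∀ t, 0 ≤ t → ∀ k (v : R.F k), S t v = SL R k t v := fun t ht => (hS t ht).1
  have hS2 : ∀ t, 0 ≤ t → ∀ f, ‖S t f‖ ≤ ‖f‖ := fun t ht => (hS t ht).2
  have hY1 : ∀ a t, 0 < t → ∀ k (v : R.F k), Y a t v = XL R k (R.J a) (SL R k t v) :=
    fun a t ht => (hY a t ht).1
  have hY2 : ∀ a t, 0 < t → ∀ f, ‖Y a t f‖ ≤ ‖f‖ / √(2 * t) := fun a t ht => (hY a t ht).2
  have S_zero : ∀ f, S 0 f = f := by
    intro f
    refine dense_ind R (fun f => S 0 f = f) (isClosed_eq (by fun_prop) continuous_id) ?_ f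
    intro k v
    rw [hS1 0 le_rfl, SL_zero]
  have S_add : ∀ s t, 0 ≤ s → 0 ≤ t → ∀ f, S (s + t) f = S s (S t f) := by
    intro s t hs ht f
    refine dense_ind R (fun f => S (s + t) f = S s (S t f))
      (isClosed_eq (by fun_prop) (by fun_prop)) ?_ f
    intro k v
    rw [hS1 _ (add_nonneg hs ht), hS1 t ht, hS1 s hs, SL_add]
  have comm : ∀ t, 0 ≤ t → ∀ g s f, S t (R.T g s f) = R.T g s (S t f) := by
    intro t ht g s f
    refine dense_ind R (fun f => S t (R.T g s f) = R.T g s (S t f))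
      (isClosed_eq (by fun_prop) (by fun_prop)) ?_ f
    intro k v
    rw [← coe_GT R k g s v, hS1 t ht, hS1 t ht, ← GT_SL]
    rfl
  have cont : ∀ f, ContinuousOn (fun t => S t f) (Ici 0) := by
    intro f
    obtain ⟨k, v, hv⟩ := exists_seq R f
    have h1 : TendstoUniformlyOn (fun n t => S t (v n)) (fun t => S t f) atTop (Ici 0) := by
      rw [Metric.tendstoUniformlyOn_iff]
      intro ε hε
      have h2 := Metric.tendsto_atTop.mp hv ε hε
      obtain ⟨N, hN⟩ := h2
      filter_upwards [eventually_ge_atTop N] with n hn t ht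
      rw [dist_comm, dist_eq_norm, ← map_sub]
      refine lt_of_le_of_lt (hS2 t ht _) ?_
      rw [← dist_eq_norm]
      exact hN n hn
    refine h1.continuousOn (Frequently.of_forall fun n => ?_)
    have h2 : Continuous fun t => SL R (k n) t (v n) :=
      continuous_iff_continuousAt.mpr fun t => (hasDerivAt_SL R (k n) (v n) t).continuousAt
    have h3 : Continuous fun t => (SL R (k n) t (v n) : 𝓔) := continuous_subtype_val.comp h2
    exact h3.continuousOn.congr fun t ht => hS1 t ht _ _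
  have gen_dir' : ∀ t, 0 < t → ∀ g f, R.HasGen g (S t f) (∑ a, R.c g a • Y a t f) := by
    intro t ht g f
    obtain ⟨k, v, hv⟩ := exists_seq R f
    refine hasGen_of_tendsto (u := fun n => S t (v n))
      (u' := fun n => ∑ a, R.c g a • Y a t (v n)) (fun n => ?_)
      (((S t).continuous.tendsto f).comp hv) ?_
    · rw [hS1 t ht.le]
      have h1 := hasGen_XL R (k n) g (SL R (k n) t (v n))
      have h2 : (XL R (k n) g (SL R (k n) t (v n)) : 𝓔) = ∑ a, R.c g a • Y a t (v n) := by
        rw [XL_lin]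
        simp only [hY1 _ t ht]
        simp
      rw [← h2]
      exact h1
    · have h1 : Continuous fun f => ∑ a, R.c g a • Y a t f := by fun_prop
      exact (h1.tendsto f).comp hv
  have gen_Y : ∀ a t, 0 < t → ∀ f, R.HasGen (R.J a) (S t f) (Y a t f) := by
    intro a t ht f
    obtain ⟨k, v, hv⟩ := exists_seq R f
    refine hasGen_of_tendsto (u := fun n => S t (v n)) (u' := fun n => Y a t (v n)) (fun n => ?_)
      (((S t).continuous.tendsto f).comp hv) (((Y a t).continuous.tendsto f).comp hv)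
    rw [hS1 t ht.le, hY1 a t ht]
    exact hasGen_XL R (k n) (R.J a) _
  have Y_add : ∀ a s t, 0 < s → 0 ≤ t → ∀ f,
      Y a (s + t) f = Y a s (S t f) ∧ Y a (s + t) f = S t (Y a s f) := by
    intro a s t hs ht f
    have hst : 0 < s + t := by linarith
    constructor
    · refine dense_ind R (fun f => Y a (s + t) f = Y a s (S t f))
        (isClosed_eq (by fun_prop) (by fun_prop)) ?_ f
      intro k v
      rw [hY1 a _ hst, hS1 t ht, hY1 a s hs, SL_add]
    · refine dense_ind R (fun f => Y a (s + t) f = S t (Y a s f))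
        (isClosed_eq (by fun_prop) (by fun_prop)) ?_ f
      intro k v
      rw [hY1 a _ hst, hY1 a s hs, hS1 t ht, add_comm, SL_add, SL_XL]
  have S_gen : ∀ a t, 0 < t → ∀ f f', R.HasGen (R.J a) f f' → Y a t f = S t f' := by
    intro a t ht f f' h
    exact hasGen_unique (gen_Y a t ht f) (hasGen_map h (S t) fun s => comm t ht.le _ s _)
  -- limits at time zero
  have S_lim : ∀ f, Tendsto (fun t => S t f) (𝓝[>] 0) (𝓝 f) := by
    intro f
    have h3 := (cont f 0 self_mem_Ici).tendsto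
    rw [S_zero] at h3
    exact h3.mono_left (nhdsWithin_mono _ Ioi_subset_Ici_self)
  -- the integral form of the heat equation
  have cont2 : ∀ f (t : ℝ), 0 ≤ t → IntervalIntegrable (fun r => S r f) volume 0 t := by
    intro f t ht
    refine ((cont f).mono ?_).intervalIntegrable
    rw [uIcc_of_le ht]
    exact Icc_subset_Ici_self
  have int_lim : ∀ (f h : 𝓔) (u w : ℕ → 𝓔),
      (∀ n, ∀ t, 0 ≤ t → S t (u n) = u n + ∫ r in (0 : ℝ)..t, S r (w n)) →
      Tendsto u atTop (𝓝 f) → Tendsto w atTop (𝓝 h) →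
      ∀ t, 0 ≤ t → S t f = f + ∫ r in (0 : ℝ)..t, S r h := by
    intro f h u w huw hu hw t ht
    have h1 : Tendsto (fun n => S t (u n)) atTop (𝓝 (S t f)) :=
      ((S t).continuous.tendsto f).comp hu
    have h2 : Tendsto (fun n => ∫ r in (0 : ℝ)..t, S r (w n)) atTop
        (𝓝 (∫ r in (0 : ℝ)..t, S r h)) := by
      rw [tendsto_iff_norm_sub_tendsto_zero]
      have h3 : ∀ n, ‖(∫ r in (0 : ℝ)..t, S r (w n)) - ∫ r in (0 : ℝ)..t, S r h‖ ≤
          ‖w n - h‖ * |t - 0| := by
        intro n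
        rw [← intervalIntegral.integral_sub (cont2 _ t ht) (cont2 _ t ht)]
        refine intervalIntegral.norm_integral_le_of_norm_le_const fun r hr => ?_
        rw [uIoc_of_le ht] at hr
        rw [← map_sub]
        exact hS2 r hr.1.le _
      have h4 : Tendsto (fun n => ‖w n - h‖ * |t - 0|) atTop (𝓝 0) := by
        have := (tendsto_iff_norm_sub_tendsto_zero.mp hw).mul_const |t - 0|
        simpa using this
      exact squeeze_zero (fun n => norm_nonneg _) h3 h4
    have h5 := hu.add h2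
    exact tendsto_nhds_unique h1 (h5.congr fun n => (huw n t ht).symm)
  have int_fin : ∀ k (v : R.F k) t, 0 ≤ t →
      S t v = v + ∫ r in (0 : ℝ)..t, S r (CL R k v : 𝓔) := by
    intro k v t ht
    have h1 : ∀ r, HasDerivAt (fun r => (SL R k r v : 𝓔)) (SL R k r (CL R k v) : 𝓔) r := by
      intro r
      have h2 := hasDerivAt_SL R k v r
      rw [SL_CL] at h2
      exact (R.F k).subtypeL.hasFDerivAt.comp_hasDerivAt r h2
    have hc : Continuous fun r => (SL R k r (CL R k v) : 𝓔) := by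
      have h2 : Continuous fun t => SL R k t (CL R k v) :=
        continuous_iff_continuousAt.mpr fun t => (hasDerivAt_SL R k (CL R k v) t).continuousAt
      exact continuous_subtype_val.comp h2
    have h3 := intervalIntegral.integral_eq_sub_of_hasDerivAt (a := 0) (b := t)
      (fun r _ => h1 r) (hc.intervalIntegrable _ _)
    rw [SL_zero] at h3
    have h4 : ∫ r in (0 : ℝ)..t, S r (CL R k v : 𝓔) =
        ∫ r in (0 : ℝ)..t, (SL R k r (CL R k v) : 𝓔) := by
      refine intervalIntegral.integral_congr fun r hr => ?_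
      rw [uIcc_of_le ht] at hr
      exact hS1 r hr.1 _ _
    rw [h4, h3, hS1 t ht]
    abel
  have XX : ∀ (f : 𝓔) (fa : A → 𝓔) (fab : A → 𝓔) (a b : A) (t : ℝ), 0 < t →
      R.HasGen (R.J b) f (fa b) → R.HasGen (R.J a) (fa b) (fab a) →
      Y a (t / 2) (Y b (t / 2) f) = S t (fab a) := by
    intro f fa fab a b t ht h1 h2
    have ht2 : 0 < t / 2 := by positivity
    rw [S_gen b (t / 2) ht2 f _ h1, ← (Y_add a (t / 2) (t / 2) ht2 ht2.le (fa b)).1, add_halves,
      S_gen a t ht _ _ h2]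
  have int_heat : ∀ (f : 𝓔) (fa faa : A → 𝓔), (∀ a, R.HasGen (R.J a) f (fa a)) →
      (∀ a, R.HasGen (R.J a) (fa a) (faa a)) → ∀ t, 0 ≤ t →
      S t f = f + ∫ r in (0 : ℝ)..t, S r (∑ a, faa a) := by
    intro f fa faa h1 h2
    obtain ⟨k, v, hv⟩ := exists_seq R f
    -- first regularise
    have step : ∀ δ, 0 < δ → ∀ t, 0 ≤ t →
        S t (S δ f) = S δ f + ∫ r in (0 : ℝ)..t, S r (S δ (∑ a, faa a)) := by
      intro δ hδ
      have hδ2 : 0 < δ / 2 := by positivity
      refine int_lim (S δ f) (S δ (∑ a, faa a)) (fun n => S δ (v n))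
        (fun n => ∑ a, Y a (δ / 2) (Y a (δ / 2) (v n))) ?_ ?_ ?_
      · intro n t ht
        have h3 : ∑ a, Y a (δ / 2) (Y a (δ / 2) (v n)) = (CL R (k n) (SL R (k n) δ (v n)) : 𝓔) := by
          rw [CL_apply]
          simp only [AddSubmonoidClass.coe_finset_sum]
          refine Finset.sum_congr rfl fun a _ => ?_
          rw [hY1 a _ hδ2, hY1 a _ hδ2]
          congr 1
          rw [← SL_XL, ← SL_add, add_halves]
        rw [h3, hS1 δ hδ.le]
        exact int_fin _ _ t ht
      · exact ((S δ).continuous.tendsto f).comp hv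
      · have h4 : S δ (∑ a, faa a) = ∑ a, Y a (δ / 2) (Y a (δ / 2) f) := by
          rw [map_sum]
          refine Finset.sum_congr rfl fun a _ => ?_
          exact (XX f fa faa a a δ hδ (h1 a) (h2 a)).symm
        rw [h4]
        have h5 : Continuous fun f => ∑ a, Y a (δ / 2) (Y a (δ / 2) f) := by fun_prop
        exact (h5.tendsto f).comp hv
    -- remove the regularisation
    have hseq : Tendsto (fun n : ℕ => 1 / ((n : ℝ) + 1)) atTop (𝓝[>] 0) := by
      rw [tendsto_nhdsWithin_iff]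
      exact ⟨tendsto_one_div_add_atTop_nhds_zero_nat, Eventually.of_forall fun n => by
        simp only [mem_Ioi]; positivity⟩
    exact int_lim f (∑ a, faa a) (fun n => S (1 / ((n : ℝ) + 1)) f)
      (fun n => S (1 / ((n : ℝ) + 1)) (∑ a, faa a))
      (fun n t ht => step _ (by positivity) t ht) ((S_lim f).comp hseq)
      ((S_lim (∑ a, faa a)).comp hseq)
  refine ⟨{ S := S, Y := Y, S_zero := S_zero, S_add := S_add, norm_S := hS2, comm := comm,
            cont := cont, gen_Y := gen_Y, gen_dir := fun g t ht f => gen_dir' t ht g f,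
            norm_Y := hY2, Y_add := Y_add, S_gen := S_gen, heat := ?_, approx := ?_ }⟩
  · intro f fa faa h1 h2 t ht
    set h := ∑ a, faa a with hh
    have hc : Continuous fun r => S (max r 0) h :=
      (cont h).comp_continuous (by fun_prop) fun r => mem_Ici.mpr (le_max_right r 0)
    have h3 : HasDerivAt (fun t => ∫ r in (0 : ℝ)..t, S (max r 0) h) (S (max t 0) h) t :=
      (hc.integral_hasStrictDerivAt 0 t).hasDerivAt
    rw [max_eq_left ht] at h3
    have h4 := (h3.const_add f).hasDerivWithinAt (s := Ici 0)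
    have h5 : ∀ t ∈ Ici (0 : ℝ), S t f = f + ∫ r in (0 : ℝ)..t, S (max r 0) h := by
      intro t ht
      rw [int_heat f fa faa h1 h2 t ht]
      congr 1
      refine intervalIntegral.integral_congr fun r hr => ?_
      rw [uIcc_of_le ht] at hr
      rw [max_eq_left hr.1]
    exact h4.congr h5 (h5 t ht)
  · intro f fa fab h1 h2 ε hε
    -- choose a small time
    have e1 : ∀ᶠ t in 𝓝[>] (0 : ℝ), ‖S t f - f‖ < ε / 2 ∧ (∀ a, ‖S t (fa a) - fa a‖ < ε / 2) ∧
        ∀ a b, ‖S t (fab a b) - fab a b‖ < ε / 2 := by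
      have hw : ∀ w, ∀ᶠ t in 𝓝[>] (0 : ℝ), ‖S t w - w‖ < ε / 2 := by
        intro w
        have h3 := tendsto_iff_norm_sub_tendsto_zero.mp (S_lim w)
        exact (tendsto_order.mp h3).2 _ (by positivity)
      refine (hw f).and (?_ : ∀ᶠ t in 𝓝[>] (0 : ℝ), _ ∧ _)
      refine (eventually_all.mpr fun a => hw (fa a)).and ?_
      exact eventually_all.mpr fun a => eventually_all.mpr fun b => hw (fab a b)
    obtain ⟨t, ⟨e2, e3, e4⟩, ht⟩ := (e1.and self_mem_nhdsWithin).exists
    have ht0 : 0 < t := ht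
    have ht2 : 0 < t / 2 := by positivity
    obtain ⟨k, v, hv⟩ := exists_seq R f
    have l1 : Tendsto (fun n => S t (v n)) atTop (𝓝 (S t f)) :=
      ((S t).continuous.tendsto f).comp hv
    have l2 : ∀ a, Tendsto (fun n => Y a t (v n)) atTop (𝓝 (S t (fa a))) := by
      intro a
      rw [← S_gen a t ht0 _ _ (h1 a)]
      exact ((Y a t).continuous.tendsto f).comp hv
    have l3 : ∀ a b, Tendsto (fun n => Y a (t / 2) (Y b (t / 2) (v n))) atTop
        (𝓝 (S t (fab a b))) := by
      intro a b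
      rw [← XX f fa (fun a => fab a b) a b t ht0 (h1 b) (h2 a b)]
      exact (((Y a (t / 2)).continuous.comp (Y b (t / 2)).continuous).tendsto f).comp hv
    have e5 : ∀ᶠ n in atTop, ‖S t (v n) - S t f‖ < ε / 2 ∧
        (∀ a, ‖Y a t (v n) - S t (fa a)‖ < ε / 2) ∧
        ∀ a b, ‖Y a (t / 2) (Y b (t / 2) (v n)) - S t (fab a b)‖ < ε / 2 := by
      have hw : ∀ (u : ℕ → 𝓔) (w : 𝓔), Tendsto u atTop (𝓝 w) →
          ∀ᶠ n in atTop, ‖u n - w‖ < ε / 2 := by
        intro u w huw
        have h3 := tendsto_iff_norm_sub_tendsto_zero.mp huw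
        exact (tendsto_order.mp h3).2 _ (by positivity)
      refine (hw _ _ l1).and (?_ : ∀ᶠ n in atTop, _ ∧ _)
      refine (eventually_all.mpr fun a => hw _ _ (l2 a)).and ?_
      exact eventually_all.mpr fun a => eventually_all.mpr fun b => hw _ _ (l3 a b)
    obtain ⟨n, e6, e7, e8⟩ := e5.exists
    have tri : ∀ x y z : 𝓔, ‖x - y‖ < ε / 2 → ‖y - z‖ < ε / 2 → ‖x - z‖ < ε := by
      intro x y z hx hy
      have := norm_sub_le_norm_sub_add_norm_sub x y z
      linarith
    refine ⟨k n, S t (v n), fun a => Y a t (v n), fun a b => Y a (t / 2) (Y b (t / 2) (v n)),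
      ?_, ?_, ?_, ?_, ?_, ?_, ?_, ?_⟩
    · rw [hS1 t ht0.le]; exact Subtype.mem _
    · intro a
      simp only
      rw [hY1 a t ht0]; exact Subtype.mem _
    · intro a b
      simp only
      rw [hY1 b _ ht2, hY1 a _ ht2]; exact Subtype.mem _
    · intro a
      exact gen_Y a t ht0 _
    · intro a b
      have h3 := (Y_add b (t / 2) (t / 2) ht2 ht2.le (v n)).2
      rw [add_halves] at h3
      simp only
      rw [h3]
      exact gen_Y a (t / 2) ht2 _
    · exact tri _ _ _ e6 e2
    · intro a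
      exact tri _ _ _ (e7 a) (e3 a)
    · intro a b
      exact tri _ _ _ (e8 a b) (e4 a b)

end Pool.Agent.RF.H3
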