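import Pool.Agent.Helper36_RF.ExistMod
import Pool.Agent.Helper25_RF.Qstr

/-!
# The 2-jet of a homogeneous field in terms of Lie derivatives (module JETS)
-/

noncomputable section

open scoped ContDiff Topology RealInnerProductSpace
set_option maxSynthPendingDepth 3
set_option linter.unusedSectionVars false
open Set Metric

namespace Pool.Agent.RF.H3

open Pool.Agent.Helper25RF

variable {ι : Type} [Fintype ι] [DecidableEq ι]

/-- the second derivative is homogeneous of degree `-4` -/
theorem fderiv2_homog {u : E ι → Bil (E ι)} (hs : ContDiffOn ℝ ∞ u (Om ι)) (hh : Homog u)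
    {c : ℝ} (hc : 0 < c) {x : E ι} (hx : x ∈ Om ι) :
    fderiv ℝ (fderiv ℝ u) (c • x) = (c ^ 4)⁻¹ • fderiv ℝ (fderiv ℝ u) x := by
  have h1 : HasFDerivAt (fun y : E ι => fderiv ℝ u (c • y))
      ((fderiv ℝ (fderiv ℝ u) (c • x)).comp (c • ContinuousLinearMap.id ℝ (E ι))) x :=
    (diffAt_fderiv_Om hs (smul_mem_Om hc hx)).hasFDerivAt.comp x
      ((c • ContinuousLinearMap.id ℝ (E ι)).hasFDerivAt)
  have h2 : HasFDerivAt (fun y : E ι => fderiv ℝ u (c • y))
      ((c ^ 3)⁻¹ • fderiv ℝ (fderiv ℝ u) x) x := by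
    refine ((diffAt_fderiv_Om hs hx).hasFDerivAt.const_smul
      ((c ^ 3)⁻¹)).congr_of_eventuallyEq ?_
    filter_upwards [isOpen_Om.mem_nhds hx] with y hy
    exact fderiv_homog hs hh hc hy
  have h3 := h1.unique h2
  apply ContinuousLinearMap.ext
  intro z
  have h4 := congrArg (fun L => c⁻¹ • L z) h3
  simp only [ContinuousLinearMap.comp_apply, _root_.smul_apply, ContinuousLinearMap.id_apply,
    map_smul, smul_smul] at h4
  rw [inv_mul_cancel₀ hc.ne', one_smul] at h4
  rw [h4, _root_.smul_apply]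
  congr 1
  field_simp

theorem cs {X : Type*} [TopologicalSpace X] {F : Type*} [NormedAddCommGroup F] [NormedSpace ℝ F]
    {g : X → F} (hg : Continuous g) (c : ℝ) : Continuous (fun q => c • g q) :=
  continuous_const.smul hg

/-- assemble a linear map -/
def asm1 (v : ι → Bil (E ι)) : E ι →L[ℝ] Bil (E ι) :=
  ∑ l, (EuclideanSpace.proj l : E ι →L[ℝ] ℝ).smulRight (v l)

theorem asm1_apply (v : ι → Bil (E ι)) (z : E ι) : asm1 v z = ∑ l, z l • v l := by
  unfold asm1
  rw [_root_.sum_apply]
  rfl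

/-- assemble a bilinear map -/
def asm2 (v : ι → ι → Bil (E ι)) : E ι →L[ℝ] E ι →L[ℝ] Bil (E ι) :=
  ∑ l, (EuclideanSpace.proj l : E ι →L[ℝ] ℝ).smulRight (asm1 (v l))

theorem asm2_apply (v : ι → ι → Bil (E ι)) (z : E ι) : asm2 v z = ∑ l, z l • asm1 (v l) := by
  unfold asm2
  rw [_root_.sum_apply]
  rfl

/-- a linear map from its values on the basis -/
theorem clm1_eq (L : E ι →L[ℝ] Bil (E ι)) : L = asm1 fun l => L (eb l) := by
  apply ContinuousLinearMap.ext
  intro z
  rw [asm1_apply]
  conv_lhs => rw [← sum_coord_smul_eb z]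
  rw [map_sum]
  simp only [map_smul]

/-- a bilinear map from its values on the basis -/
theorem clm2_eq (L : E ι →L[ℝ] E ι →L[ℝ] Bil (E ι)) : L = asm2 fun l k => L (eb l) (eb k) := by
  apply ContinuousLinearMap.ext
  intro z
  rw [asm2_apply]
  conv_lhs => rw [← sum_coord_smul_eb z]
  rw [map_sum]
  refine Finset.sum_congr rfl fun l _ => ?_
  rw [map_smul]
  congr 1
  exact clm1_eq _

theorem continuous_asm1 {X : Type*} [TopologicalSpace X] {v : X → ι → Bil (E ι)}
    (hv : ∀ l, Continuous fun x => v x l) : Continuous fun x => asm1 (v x) := by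
  rw [continuous_clm_apply]
  intro z
  simp only [asm1_apply]
  exact continuous_finsetSum _ fun l _ => cs (hv l) _

theorem continuous_asm2 {X : Type*} [TopologicalSpace X] {v : X → ι → ι → Bil (E ι)}
    (hv : ∀ l k, Continuous fun x => v x l k) : Continuous fun x => asm2 (v x) := by
  rw [continuous_clm_apply]
  intro z
  simp only [asm2_apply]
  exact continuous_finsetSum _ fun l _ => cs (continuous_asm1 fun k => hv l k) _

theorem continuous_Pk {X : Type*} [TopologicalSpace X] (k : ι) (x : E ι) {g : X → Bil (E ι)}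
    {L : X → ι × ι → Bil (E ι)} (hg : Continuous g) (hL : ∀ a, Continuous fun q => L q a) :
    Continuous fun q => Pk k x (g q) (L q) := by
  unfold Pk
  refine Continuous.sub (cs ?_ _) (cs hg _)
  refine continuous_finsetSum _ fun i _ => ?_
  exact cs ((hL _).sub ((adj _).continuous.comp hg)) _

theorem continuous_Skl {X : Type*} [TopologicalSpace X] (l k : ι) (x : E ι) {g : X → Bil (E ι)}
    {L : X → ι × ι → Bil (E ι)} {M : X → ι × ι → ι × ι → Bil (E ι)} (hg : Continuous g)
    (hL : ∀ a, Continuous fun q => L q a) (hM : ∀ a b, Continuous fun q => M q a b) :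
    Continuous fun q => Skl l k x (g q) (L q) (M q) := by
  unfold Skl
  refine Continuous.sub (Continuous.add ?_ (cs ?_ _)) ?_
  · exact (cs (continuous_Pk k x hg hL) _).neg
  · refine continuous_finsetSum _ fun i _ => ?_
    refine Continuous.add ?_ ?_
    · exact cs ((hL _).sub ((adj _).continuous.comp hg)) _
    · refine cs (Continuous.sub ?_ ?_) _
      · exact continuous_Pk l x (hL _) (fun a => hM a (k, i))
      · exact (adj _).continuous.comp (continuous_Pk l x hg hL)
  · exact (cs hg _).add (cs (continuous_Pk l x hg hL) _)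

theorem jets : JetStatement := by
  intro ι _ _
  refine ⟨fun u hu hh J => ⟨contDiffOn_lieX hu J, homog_lieX hu hh J⟩, ?_⟩
  refine ⟨fun x q => asm1 fun k => (‖x‖ ^ 2)⁻¹ • Pk k x q.1 q.2,
    fun x q => asm2 fun l k => (‖x‖ ^ 4)⁻¹ • Skl l k (‖x‖⁻¹ • x) (‖x‖ ^ 2 • q.1)
      (fun a => ‖x‖ ^ 2 • q.2.1 a) (fun a b => ‖x‖ ^ 2 • q.2.2 a b), ?_, ?_, ?_⟩
  · intro x _
    refine continuous_asm1 fun k => ?_
    exact cs (continuous_Pk k x continuous_fst
      (fun a => (continuous_apply a).comp continuous_snd)) _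
  · intro x _
    refine continuous_asm2 fun l k => cs ?_ _
    refine continuous_Skl l k _ (cs continuous_fst _) (fun a => ?_) (fun a b => ?_)
    · exact cs ((continuous_apply a).comp (continuous_fst.comp continuous_snd)) _
    · exact cs ((continuous_apply b).comp ((continuous_apply a).comp
        (continuous_snd.comp continuous_snd))) _
  · intro u hu hh x hx
    have hx0 : 0 < ‖x‖ := norm_pos_iff.2 hx
    constructor
    · rw [clm1_eq (fderiv ℝ u x)]
      show _ = asm1 fun k => (‖x‖ ^ 2)⁻¹ • Pk k x (u x) (fun a => lieX (Jst a) u x)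
      congr 1
      funext k
      rw [← fderiv_eb hu hh hx k, smul_smul, inv_mul_cancel₀ (by positivity), one_smul]
    · have hy : ‖x‖⁻¹ • x ∈ Om ι := smul_mem_Om (by positivity) hx
      have hy1 : ‖‖x‖⁻¹ • x‖ = 1 := by
        rw [norm_smul, norm_inv, norm_norm, inv_mul_cancel₀ hx0.ne']
      have e0 : ∀ v : E ι → Bil (E ι), Homog v → v (‖x‖⁻¹ • x) = ‖x‖ ^ 2 • v x := by
        intro v hv
        rw [hv _ (by positivity) x hx]
        congr 1
        rw [inv_pow, inv_inv]
      have e1 : fderiv ℝ (fderiv ℝ u) x =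
          (‖x‖ ^ 4)⁻¹ • fderiv ℝ (fderiv ℝ u) (‖x‖⁻¹ • x) := by
        rw [fderiv2_homog hu hh (by positivity) hx, smul_smul, inv_pow, inv_inv,
          inv_mul_cancel₀ (by positivity), one_smul]
      rw [e1]
      show _ = asm2 fun l k => (‖x‖ ^ 4)⁻¹ • Skl l k (‖x‖⁻¹ • x) (‖x‖ ^ 2 • u x)
        (fun a => ‖x‖ ^ 2 • lieX (Jst a) u x)
        (fun a b => ‖x‖ ^ 2 • lieX (Jst a) (lieX (Jst b) u) x)
      rw [clm2_eq ((‖x‖ ^ 4)⁻¹ • fderiv ℝ (fderiv ℝ u) (‖x‖⁻¹ • x))]
      congr 1
      funext l k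
      rw [_root_.smul_apply, _root_.smul_apply, fderiv2_eb hu hh hy hy1 l k, e0 u hh]
      congr 1
      congr 1
      · funext a
        exact e0 _ (homog_lieX hu hh _)
      · funext a b
        exact e0 _ (homog_lieX (contDiffOn_lieX hu _) (homog_lieX hu hh _) _)

end Pool.Agent.RF.H3
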