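import Pool.Agent.Helper36_RF.ExistMod
import Pool.Agent.Helper25_RF.EquivMain

/-!
# The fixed point equation is rotation equivariant (module STEP)
-/

noncomputable section

open scoped ContDiff Topology RealInnerProductSpace
set_option maxSynthPendingDepth 3
set_option linter.unusedSectionVars false
open Set Metric

namespace Pool.Agent.RF.H3

open Pool.Agent.Helper25RF

variable {ι : Type} [Fintype ι] [DecidableEq ι]

/-- slices of families -/
def sa (W : FT ι (A1 ι)) (t : Icc (0:ℝ) 1) (a : ι × ι) : C(Sph ι, Bil (E ι)) :=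
  ⟨fun x => W (t, x) a, by
    have h : Continuous fun x : Sph ι => W (t, x) := W.continuous.comp (by fun_prop)
    exact (continuous_apply a).comp h⟩

/-- slices of double families -/
def sab (W : FT ι (A2 ι)) (t : Icc (0:ℝ) 1) (a b : ι × ι) : C(Sph ι, Bil (E ι)) :=
  ⟨fun x => W (t, x) a b, by
    have h : Continuous fun x : Sph ι => W (t, x) := W.continuous.comp (by fun_prop)
    exact (continuous_apply b).comp ((continuous_apply a).comp h)⟩

theorem sl_apply' (W : FT ι (Bil (E ι))) (t : Icc (0:ℝ) 1) (x : Sph ι) : sl W t x = W (t, x) := rfl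
theorem sa_apply (W : FT ι (A1 ι)) (t : Icc (0:ℝ) 1) (a : ι × ι) (x : Sph ι) :
    sa W t a x = W (t, x) a := rfl
theorem sab_apply (W : FT ι (A2 ι)) (t : Icc (0:ℝ) 1) (a b : ι × ι) (x : Sph ι) :
    sab W t a b x = W (t, x) a b := rfl

variable {R : RotSys C(Sph ι, Bil (E ι)) (Gam ι) (ι × ι)}

theorem data_gens (hG : GenStatement) (hR : IsRotSys R) {u : E ι → Bil (E ι)} {U : DD ι}
    (hu : ContDiffOn ℝ ∞ u (Om ι)) (hU : IsData u U) (t : Icc (0:ℝ) 1) :
    (∀ a, R.HasGen (R.J a) (sl U.1 t) (sa U.2.1 t a)) ∧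
    ∀ a b, R.HasGen (R.J a) (sa U.2.1 t b) (sab U.2.2 t a b) := by
  constructor
  · intro a
    refine hG ι R hR u hu (R.J a) _ _ (fun x => hU.1 t x) (fun x => ?_)
    rw [hR.J_eq]
    exact hU.2.1 t x a
  · intro a b
    refine hG ι R hR (lieX (Jst b) u) (contDiffOn_lieX hu _) (R.J a) _ _
      (fun x => hU.2.1 t x b) (fun x => ?_)
    rw [hR.J_eq]
    exact hU.2.2 t x a b

variable {C T : ℝ} {K : FT ι (Bil (E ι)) →L[ℝ] FT ι (Bil (E ι))}
    {K1 : ι × ι → FT ι (Bil (E ι)) →L[ℝ] FT ι (Bil (E ι))}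
    {K2 : ι × ι → ι × ι → FT ι (Bil (E ι)) →L[ℝ] FT ι (Bil (E ι))}

theorem sl_jet (U : DD ι) (p : FT ι (Bil (E ι))) (t : Icc (0:ℝ) 1) :
    sl (jet K K1 K2 (U, p)).1 t = sl U.1 t + sl (K p) t := by
  apply ContinuousMap.ext
  intro x
  rfl

theorem sa_jet (U : DD ι) (p : FT ι (Bil (E ι))) (t : Icc (0:ℝ) 1) (a : ι × ι) :
    sa (jet K K1 K2 (U, p)).2.1 t a = sa U.2.1 t a + sl (K1 a p) t := by
  apply ContinuousMap.ext
  intro x
  show U.2.1 (t, x) a + kh1 K1 p (t, x) a = U.2.1 (t, x) a + K1 a p (t, x)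
  rw [kh1_apply]

theorem sab_jet (U : DD ι) (p : FT ι (Bil (E ι))) (t : Icc (0:ℝ) 1) (a b : ι × ι) :
    sab (jet K K1 K2 (U, p)).2.2 t a b = sab U.2.2 t a b + sl (K2 a b p) t := by
  apply ContinuousMap.ext
  intro x
  show U.2.2 (t, x) a b + kh2 K2 p (t, x) a b = U.2.2 (t, x) a b + K2 a b p (t, x)
  rw [kh2_apply]

theorem jet_gens (hG : GenStatement) (hR : IsRotSys R) (hK : IsKop R C T K K1 K2)
    {u : E ι → Bil (E ι)} {U : DD ι} (p : FT ι (Bil (E ι)))
    (hu : ContDiffOn ℝ ∞ u (Om ι)) (hU : IsData u U) (t : Icc (0:ℝ) 1) :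
    (∀ a, R.HasGen (R.J a) (sl (jet K K1 K2 (U, p)).1 t) (sa (jet K K1 K2 (U, p)).2.1 t a)) ∧
    ∀ a b, R.HasGen (R.J a) (sa (jet K K1 K2 (U, p)).2.1 t b)
      (sab (jet K K1 K2 (U, p)).2.2 t a b) := by
  obtain ⟨h1, h2⟩ := data_gens hG hR hu hU t
  constructor
  · intro a
    rw [sl_jet, sa_jet]
    exact hasGen_add (h1 a) (hK.gen1 p t a)
  · intro a b
    rw [sa_jet, sab_jet]
    exact hasGen_add (h2 a b) (hK.gen2 p t a b)

/-- the Casimir operator commutes with rotations -/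
theorem cas_T (H : Heat R) (J : Gam ι) (s : ℝ) {f : C(Sph ι, Bil (E ι))}
    {fa faa ga gaa : ι × ι → C(Sph ι, Bil (E ι))}
    (h1 : ∀ a, R.HasGen (R.J a) f (fa a)) (h2 : ∀ a, R.HasGen (R.J a) (fa a) (faa a))
    (h3 : ∀ a, R.HasGen (R.J a) (R.T J s f) (ga a)) (h4 : ∀ a, R.HasGen (R.J a) (ga a) (gaa a)) :
    ∑ a, gaa a = R.T J s (∑ a, faa a) := by
  have h5 := H.heat f fa faa h1 h2 0 le_rfl
  have h6 := H.heat _ ga gaa h3 h4 0 le_rfl
  rw [H.S_zero] at h5 h6
  have h7 : HasDerivWithinAt (fun t => R.T J s (H.S t f)) (R.T J s (∑ a, faa a)) (Ici 0) 0 :=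
    (R.T J s).hasFDerivAt.comp_hasDerivWithinAt 0 h5
  have h8 : HasDerivWithinAt (fun t => R.T J s (H.S t f)) (∑ a, gaa a) (Ici 0) 0 := by
    refine h6.congr (fun t ht => ?_) ?_
    · exact (H.comm t ht J s f).symm
    · exact (H.comm 0 le_rfl J s f).symm
  exact (uniqueDiffWithinAt_Ici (0:ℝ)).eq_deriv _ h8 h7

theorem SY_T (hR : IsRotSys R) (J : Gam ι) (s : ℝ) (f : C(Sph ι, Bil (E ι))) :
    SY ι (R.T J s f) = R.T J s (SY ι f) := by
  apply ContinuousMap.ext
  intro x
  apply ContinuousLinearMap.ext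
  intro v
  apply ContinuousLinearMap.ext
  intro w
  rw [T_vw hR, SY_apply, SY_apply, symL_apply, symL_apply, T_vw hR, T_vw hR]

theorem SY_eq_self_iff (f : C(Sph ι, Bil (E ι))) :
    SY ι f = f ↔ ∀ x v w, f x v w = f x w v := by
  constructor
  · intro h x v w
    have h1 : symL ι (f x) v w = f x v w := by rw [← SY_apply, h]
    rw [symL_apply] at h1
    linarith
  · intro h
    apply ContinuousMap.ext
    intro x
    apply ContinuousLinearMap.ext
    intro v
    apply ContinuousLinearMap.ext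
    intro w
    rw [SY_apply, symL_apply, h x w v]
    ring

theorem contDiffOn_rpull {u : E ι → Bil (E ι)} (hu : ContDiffOn ℝ ∞ u (Om ι)) (J : Gam ι)
    (s : ℝ) : ContDiffOn ℝ ∞ (rpull (rot J.1 s) u) (Om ι) := by
  have h1 : ContDiffOn ℝ ∞ (fun x => u (rot J.1 s x)) (Om ι) := by
    refine hu.comp (rot J.1 s).contDiff.contDiffOn ?_
    intro x hx
    show rot J.1 s x ≠ 0
    rw [← norm_ne_zero_iff, norm_rot J.2.1, norm_ne_zero_iff]
    exact hx
  exact (pull2 (rot J.1 s) (rot J.1 s)).contDiff.comp_contDiffOn h1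

theorem inner_rot (J : Gam ι) (s : ℝ) (v w : E ι) : ⟪rot J.1 s v, rot J.1 s w⟫ = ⟪v, w⟫ :=
  LinearIsometryEquiv.inner_map_map (rotE J s) v w

theorem T_apply' (hR : IsRotSys R) (J : Gam ι) (s : ℝ) (f : C(Sph ι, Bil (E ι))) (x : Sph ι) :
    R.T J s f x = (f (rotS J s x)).bilinearComp (rot J.1 s) (rot J.1 s) :=
  hR.T_apply J s f x (rotS J s x) rfl

theorem step (hE : EquivStatement) (hG : GenStatement) : StepStatement := by
  intro ι _ _ _ R H hR c Gf r Cq hQ hr C' T K K1 K2 _ hK u U p hu hsym hU hfix hnear J s U' p'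
    hU' hp'
  have hu' := contDiffOn_rpull hu J s
  -- the first slices
  have hsl : ∀ t, sl (jet K K1 K2 (U', p')).1 t = R.T J s (sl (jet K K1 K2 (U, p)).1 t) := by
    intro t
    rw [sl_jet, sl_jet, map_add, hK.rot J s p p' hp' t]
    congr 1
    apply ContinuousMap.ext
    intro x
    rw [T_apply' hR]
    show U'.1 (t, x) = (U.1 (t, rotS J s x)).bilinearComp _ _
    rw [hU'.1 t x, hU.1 t (rotS J s x)]
    rfl
  have hslx : ∀ t x, (jet K K1 K2 (U', p')).1 (t, x) =
      ((jet K K1 K2 (U, p)).1 (t, rotS J s x)).bilinearComp (rot J.1 s) (rot J.1 s) := by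
    intro t x
    have h := congrArg (fun f : C(Sph ι, Bil (E ι)) => f x) (hsl t)
    simp only [T_apply' hR] at h
    exact h
  -- symmetry
  have hsymU : ∀ t, SY ι (sl U.1 t) = sl U.1 t := by
    intro t
    rw [SY_eq_self_iff]
    intro x v w
    rw [sl_apply', hU.1 t x]
    exact hsym _ (coe_sph_mem x) v w
  have hdg := fun t => data_gens hG hR hu hU t
  have hsymU1 : ∀ t a, SY ι (sa U.2.1 t a) = sa U.2.1 t a := by
    intro t a
    have h1 := hasGen_SY hR ((hdg t).1 a)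
    rw [hsymU t] at h1
    exact hasGen_unique h1 ((hdg t).1 a)
  have hsymU2 : ∀ t a b, SY ι (sab U.2.2 t a b) = sab U.2.2 t a b := by
    intro t a b
    have h1 := hasGen_SY hR ((hdg t).2 a b)
    rw [hsymU1 t] at h1
    exact hasGen_unique h1 ((hdg t).2 a b)
  have hsymp : ∀ t, SY ι (sl p t) = sl p t := by
    intro t
    rw [SY_eq_self_iff]
    intro x v w
    have h1 : ∀ a, U.2.2 (t, x) a a v w = U.2.2 (t, x) a a w v := by
      intro a
      exact (SY_eq_self_iff _).mp (hsymU2 t a a) x v w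
    rw [sl_apply', hfix (t, x)]
    simp only [_root_.add_apply, _root_.sum_apply]
    rw [PiB_symm]
    congr 1
    exact Finset.sum_congr rfl fun a _ => h1 a
  have hsymW : ∀ t, SY ι (sl (jet K K1 K2 (U, p)).1 t) = sl (jet K K1 K2 (U, p)).1 t := by
    intro t
    rw [sl_jet, map_add, hsymU t, hK.comm (SY ι) (fun J s f => SY_T hR J s f) p hsymp t]
  have hg := fun t => jet_gens hG hR hK p hu hU t
  have hg' := fun t => jet_gens hG hR hK p' hu' hU' t
  have hd' := fun t => data_gens hG hR hu' hU' t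
  refine ⟨?_, ?_, hsl⟩
  · rintro ⟨t, x⟩
    obtain ⟨wa', wab', n, n', e1, e2, e3, e4, e5⟩ := hE ι R H hR c Gf r Cq hQ hr
      (sl (jet K K1 K2 (U, p)).1 t) (fun a => sa (jet K K1 K2 (U, p)).2.1 t a)
      (fun a b => sab (jet K K1 K2 (U, p)).2.2 t a b) (hg t).1 (hg t).2
      ((SY_eq_self_iff _).mp (hsymW t)) (fun x => hnear (t, x)) J s
    have f1 : ∀ a, sa (jet K K1 K2 (U', p')).2.1 t a = wa' a := by
      intro a
      have h := (hg' t).1 a
      rw [hsl t] at h
      exact hasGen_unique h (e1 a)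
    have f2 : ∀ a b, sab (jet K K1 K2 (U', p')).2.2 t a b = wab' a b := by
      intro a b
      have h := (hg' t).2 a b
      rw [f1 b] at h
      exact hasGen_unique h (e2 a b)
    -- Casimir terms
    have c1 : ∑ a, wab' a a = R.T J s (∑ a, sab (jet K K1 K2 (U, p)).2.2 t a a) :=
      cas_T H J s (hg t).1 (fun a => (hg t).2 a a) e1 (fun a => e2 a a)
    have hUsl : sl U'.1 t = R.T J s (sl U.1 t) := by
      apply ContinuousMap.ext
      intro x
      rw [T_apply' hR]
      show U'.1 (t, x) = (U.1 (t, rotS J s x)).bilinearComp _ _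
      rw [hU'.1 t x, hU.1 t (rotS J s x)]
      rfl
    have c2 : ∑ a, sab U'.2.2 t a a = R.T J s (∑ a, sab U.2.2 t a a) := by
      refine cas_T H J s (hdg t).1 (fun a => (hdg t).2 a a) (ga := fun a => sa U'.2.1 t a)
        (fun a => ?_) (fun a => (hd' t).2 a a)
      have h := (hd' t).1 a
      rwa [hUsl] at h
    -- evaluate
    set y := rotS J s x with hy
    have k1 : p' (t, x) = (p (t, y)).bilinearComp (rot J.1 s) (rot J.1 s) := by
      have h := congrArg (fun f : C(Sph ι, Bil (E ι)) => f x) (hp' t)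
      simp only [T_apply' hR] at h
      exact h
    have k2 : (∑ a, U'.2.2 (t, x) a a) =
        (∑ a, U.2.2 (t, y) a a).bilinearComp (rot J.1 s) (rot J.1 s) := by
      have h := congrArg (fun f : C(Sph ι, Bil (E ι)) => f x) c2
      simp only [T_apply' hR, ContinuousMap.sum_apply] at h
      exact h
    have k3 : (∑ a, wab' a a x) =
        (∑ a, (jet K K1 K2 (U, p)).2.2 (t, y) a a).bilinearComp (rot J.1 s) (rot J.1 s) := by
      have h := congrArg (fun f : C(Sph ι, Bil (E ι)) => f x) c1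
      simp only [T_apply' hR, ContinuousMap.sum_apply] at h
      exact h
    have k4 : n' x = (n y).bilinearComp (rot J.1 s) (rot J.1 s) := by
      rw [e5, T_apply' hR]
    have k5 : c ((x : E ι), (jet K K1 K2 (U', p')).1 (t, x)) ((jet K K1 K2 (U', p')).2.2 (t, x))
        + Gf ((x : E ι), (jet K K1 K2 (U', p')).1 (t, x), (jet K K1 K2 (U', p')).2.1 (t, x))
        = n' x - ∑ a, wab' a a x := by
      have g0 : R.T J s (sl (jet K K1 K2 (U, p)).1 t) x = (jet K K1 K2 (U', p')).1 (t, x) := by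
        rw [← hsl t]; rfl
      have g1 : (fun a => wa' a x) = (jet K K1 K2 (U', p')).2.1 (t, x) := by
        funext a
        rw [← f1 a]; rfl
      have g2 : (fun a b => wab' a b x) = (jet K K1 K2 (U', p')).2.2 (t, x) := by
        funext a b
        rw [← f2 a b]; rfl
      rw [e4 x, g0, g1, g2]
      abel
    have k6 : c ((y : E ι), (jet K K1 K2 (U, p)).1 (t, y)) ((jet K K1 K2 (U, p)).2.2 (t, y))
        + Gf ((y : E ι), (jet K K1 K2 (U, p)).1 (t, y), (jet K K1 K2 (U, p)).2.1 (t, y))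
        = n y - ∑ a, (jet K K1 K2 (U, p)).2.2 (t, y) a a := by
      rw [e3 y]
      show _ = (∑ a, (jet K K1 K2 (U, p)).2.2 (t, y) a a) + _ + _ - _
      abel
    show p' (t, x) = PiB (x : E ι) (c ((x : E ι), (jet K K1 K2 (U', p')).1 (t, x))
        ((jet K K1 K2 (U', p')).2.2 (t, x))
        + Gf ((x : E ι), (jet K K1 K2 (U', p')).1 (t, x), (jet K K1 K2 (U', p')).2.1 (t, x)))
      + ∑ a, U'.2.2 (t, x) a a
    rw [k5, k1, k2, k3, k4, hfix (t, y)]
    show (PiB (y : E ι) (c ((y : E ι), (jet K K1 K2 (U, p)).1 (t, y))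
        ((jet K K1 K2 (U, p)).2.2 (t, y))
        + Gf ((y : E ι), (jet K K1 K2 (U, p)).1 (t, y), (jet K K1 K2 (U, p)).2.1 (t, y)))
      + ∑ a, U.2.2 (t, y) a a).bilinearComp _ _ = _
    rw [k6]
    have k7 : ((n y).bilinearComp (rot J.1 s) (rot J.1 s) -
        (∑ a, (jet K K1 K2 (U, p)).2.2 (t, y) a a).bilinearComp (rot J.1 s) (rot J.1 s)) =
        (n y - ∑ a, (jet K K1 K2 (U, p)).2.2 (t, y) a a).bilinearComp
          (rot J.1 s) (rot J.1 s) := by
      simp only [← pull2_eq, map_sub]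
    rw [k7, PiB_comp (rot J.1 s) (inner_rot J s)]
    simp only [← pull2_eq, map_add]
    rfl
  · rintro ⟨t, x⟩
    rw [hslx t x]
    have h1 : ((jet K K1 K2 (U, p)).1 (t, rotS J s x)).bilinearComp (rot J.1 s) (rot J.1 s) - del ι
        = ((jet K K1 K2 (U, p)).1 (t, rotS J s x) - del ι).bilinearComp
          (rot J.1 s) (rot J.1 s) := by
      apply ContinuousLinearMap.ext
      intro v
      apply ContinuousLinearMap.ext
      intro w
      show _ - del ι v w = _ - del ι (rot J.1 s v) (rot J.1 s w)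
      rw [del_apply, del_apply, inner_rot]
      rfl
    rw [h1]
    exact (norm_comp_rot J s _).trans_lt (hnear (t, rotS J s x))

end Pool.Agent.RF.H3
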