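import Pool.Agent.Helper36_RF.Abs

/-!
# Bernstein's estimate in finite dimension
-/

set_option maxSynthPendingDepth 3
set_option autoImplicit false

open Set Filter Topology

namespace Pool.Agent.RF.H3

/-- second derivative test -/
theorem second_nonpos {h h' : ℝ → ℝ} {c : ℝ} (h1 : ∀ s, HasDerivAt h (h' s) s)
    (h2 : HasDerivAt h' c 0) (hm : ∀ s, h s ≤ h 0) : c ≤ 0 := by
  by_contra hc
  push Not at hc
  have h0 : h' 0 = 0 := by
    have : IsLocalMax h 0 := Filter.Eventually.of_forall hm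
    exact this.hasDerivAt_eq_zero (h1 0)
  have h3 : Tendsto (fun s => s⁻¹ * h' s) (𝓝[≠] 0) (𝓝 c) := by
    have := hasDerivAt_iff_tendsto_slope.mp h2
    refine this.congr fun s => ?_
    rw [slope_def_field, h0, sub_zero, sub_zero]
    ring
  have h4 : ∀ᶠ s in 𝓝[≠] (0 : ℝ), 0 < s⁻¹ * h' s := (tendsto_order.mp h3).1 0 hc
  rw [eventually_nhdsWithin_iff, Metric.eventually_nhds_iff] at h4
  obtain ⟨δ, hδ, h5⟩ := h4
  obtain ⟨s, hs, h6⟩ := exists_hasDerivAt_eq_slope h h' (half_pos hδ)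
    (fun s _ => (h1 s).continuousAt.continuousWithinAt) (fun s _ => h1 s)
  have hs1 : 0 < s := hs.1
  have h7 : 0 < s⁻¹ * h' s := by
    apply h5
    · rw [dist_zero_right, Real.norm_eq_abs, abs_of_pos hs1]
      linarith [hs.2]
    · exact hs1.ne'
  have h8 : 0 < h' s := by
    have : h' s = s * (s⁻¹ * h' s) := by field_simp
    rw [this]; exact mul_pos hs1 h7
  rw [h6, sub_zero] at h8
  have h9 := hm (δ / 2)
  have h10 : (h (δ / 2) - h 0) / (δ / 2) ≤ 0 :=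
    div_nonpos_of_nonpos_of_nonneg (by linarith) (by linarith)
  linarith

section
variable {F : Type} [NormedAddCommGroup F] [NormedSpace ℝ F] [FiniteDimensional ℝ F]

theorem hasDerivAt_exp_apply [CompleteSpace F] (X : F →L[ℝ] F) (v : F) (s : ℝ) :
    HasDerivAt (fun s : ℝ => NormedSpace.exp (s • X) v) (NormedSpace.exp (s • X) (X v)) s := by
  have h1 := hasDerivAt_exp_smul_const (𝕂 := ℝ) X s
  have h2 := (ContinuousLinearMap.apply ℝ F v).hasFDerivAt.comp_hasDerivAt s h1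
  exact h2

theorem hasDerivAt_exp_apply' [CompleteSpace F] (X : F →L[ℝ] F) (v : F) (s : ℝ) :
    HasDerivAt (fun s : ℝ => NormedSpace.exp (s • X) v) (X (NormedSpace.exp (s • X) v)) s := by
  have h1 := hasDerivAt_exp_smul_const' (𝕂 := ℝ) X s
  have h2 := (ContinuousLinearMap.apply ℝ F v).hasFDerivAt.comp_hasDerivAt s h1
  exact h2

end

theorem bernstein : BernsteinStatement := by
  intro F _ _ _ A _ X hiso hcomm
  haveI : CompleteSpace F := FiniteDimensional.complete ℝ F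
  set C : F →L[ℝ] F := ∑ a, X a * X a with hC
  intro t0 ht0 f
  set u : ℝ → F := fun t => NormedSpace.exp (t • C) f with hu
  have hu' : ∀ t, HasDerivAt u (C (u t)) t := fun t => hasDerivAt_exp_apply' C f t
  have hu0 : u 0 = f := by simp [hu]
  have hucont : Continuous u := continuous_iff_continuousAt.mpr fun t => (hu' t).continuousAt
  -- the functional
  set Φ : ℝ → (F →L[ℝ] ℝ) → ℝ := fun t ξ => ξ (u t) ^ 2 + 2 * t * ∑ b, ξ (X b (u t)) ^ 2 with hΦ
  set Φ' : ℝ → (F →L[ℝ] ℝ) → ℝ := fun t ξ => 2 * (ξ (u t) * ξ (C (u t))) +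
    (2 * ∑ b, ξ (X b (u t)) ^ 2 + 2 * t * ∑ b, 2 * (ξ (X b (u t)) * ξ (X b (C (u t))))) with hΦ'
  have hder : ∀ t ξ, HasDerivAt (fun t => Φ t ξ) (Φ' t ξ) t := by
    intro t ξ
    have h1 : ∀ L : F →L[ℝ] ℝ, HasDerivAt (fun t => L (u t)) (L (C (u t))) t := fun L =>
      L.hasFDerivAt.comp_hasDerivAt t (hu' t)
    have h2 : ∀ L : F →L[ℝ] ℝ,
        HasDerivAt (fun t => L (u t) ^ 2) (2 * (L (u t) * L (C (u t)))) t := by
      intro L
      have := (h1 L).pow 2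
      refine this.congr_deriv ?_
      simp; ring
    have h3 : HasDerivAt (fun t => ∑ b, ξ (X b (u t)) ^ 2)
        (∑ b, 2 * (ξ (X b (u t)) * ξ (X b (C (u t))))) t := by
      refine HasDerivAt.fun_sum fun b _ => ?_
      exact h2 (ξ ∘L X b)
    have h4 : HasDerivAt (fun t : ℝ => 2 * t) 2 t := by
      simpa using (hasDerivAt_id t).const_mul 2
    exact (h2 ξ).add (h4.mul h3)
  -- the sign at maximisers
  set K : Set (F →L[ℝ] ℝ) := Metric.closedBall 0 1 with hK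
  have hKc : IsCompact K := isCompact_closedBall 0 1
  have hKinv : ∀ ξ ∈ K, ∀ a (s : ℝ), ξ ∘L NormedSpace.exp (s • X a) ∈ K := by
    intro ξ hξ a s
    rw [hK, mem_closedBall_zero_iff] at hξ ⊢
    refine ContinuousLinearMap.opNorm_le_bound _ zero_le_one fun v => ?_
    rw [one_mul]
    calc ‖(ξ ∘L NormedSpace.exp (s • X a)) v‖ ≤ ‖ξ‖ * ‖NormedSpace.exp (s • X a) v‖ :=
          ξ.le_opNorm _
      _ ≤ 1 * ‖NormedSpace.exp (s • X a) v‖ := mul_le_mul_of_nonneg_right hξ (norm_nonneg _)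
      _ = ‖v‖ := by rw [one_mul, hiso]
  have hmax : ∀ t, 0 ≤ t → ∀ ξ ∈ K, (∀ η ∈ K, Φ t η ≤ Φ t ξ) → Φ' t ξ ≤ 0 := by
    intro t ht ξ hξ hm
    have hsec : ∀ a, 2 * (ξ (X a (u t)) ^ 2 + ξ (u t) * ξ (X a (X a (u t)))) +
        2 * t * ∑ b, 2 * (ξ (X a (X b (u t))) ^ 2 +
          ξ (X b (u t)) * ξ (X a (X a (X b (u t))))) ≤ 0 := by
      intro a
      set E : ℝ → F →L[ℝ] F := fun s => NormedSpace.exp (s • X a) with hE
      have hE0 : ∀ v, E 0 v = v := fun v => by simp [hE]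
      have g1 : ∀ v s, HasDerivAt (fun s => ξ (E s v)) (ξ (E s (X a v))) s := fun v s =>
        ξ.hasFDerivAt.comp_hasDerivAt s (hasDerivAt_exp_apply (X a) v s)
      have g2 : ∀ v s, HasDerivAt (fun s => ξ (E s v) ^ 2)
          (2 * (ξ (E s v) * ξ (E s (X a v)))) s := by
        intro v s
        refine ((g1 v s).pow 2).congr_deriv ?_
        simp; ring
      have g3 : ∀ v, HasDerivAt (fun s => 2 * (ξ (E s v) * ξ (E s (X a v))))
          (2 * (ξ (X a v) ^ 2 + ξ v * ξ (X a (X a v)))) 0 := by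
        intro v
        have := ((g1 v 0).mul (g1 (X a v) 0)).const_mul 2
        refine this.congr_deriv ?_
        rw [hE0, hE0, hE0]
        ring
      refine second_nonpos (h := fun s => Φ t (ξ ∘L E s))
        (h' := fun s => 2 * (ξ (E s (u t)) * ξ (E s (X a (u t)))) +
          2 * t * ∑ b, 2 * (ξ (E s (X b (u t))) * ξ (E s (X a (X b (u t)))))) ?_ ?_ ?_
      · intro s
        exact (g2 (u t) s).add
          ((HasDerivAt.fun_sum fun b _ => g2 (X b (u t)) s).const_mul (2 * t))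
      · exact (g3 (u t)).add
          ((HasDerivAt.fun_sum fun b _ => g3 (X b (u t))).const_mul (2 * t))
      · intro s
        have h1 := hm _ (hKinv ξ hξ a s)
        have h2 : ξ ∘L E 0 = ξ := by
          ext1 v; simp [hE]
        rw [h2]
        exact h1
    have hsum := Finset.sum_nonpos (s := Finset.univ) fun a _ => hsec a
    have e1 : ∑ a, ξ (X a (X a (u t))) = ξ (C (u t)) := by
      rw [hC]; simp [map_sum]
    have e2 : ∀ b, ∑ a, ξ (X a (X a (X b (u t)))) = ξ (X b (C (u t))) := by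
      intro b
      have h1 := congrArg (fun L : F →L[ℝ] F => L (u t)) (hcomm b)
      simp only [ContinuousLinearMap.mul_apply] at h1
      rw [← h1, hC]
      simp [map_sum]
    have e3 : ∑ a, (2 * (ξ (X a (u t)) ^ 2 + ξ (u t) * ξ (X a (X a (u t)))) +
        2 * t * ∑ b, 2 * (ξ (X a (X b (u t))) ^ 2 +
          ξ (X b (u t)) * ξ (X a (X a (X b (u t)))))) =
        Φ' t ξ + 4 * t * ∑ a, ∑ b, ξ (X a (X b (u t))) ^ 2 := by
      rw [hΦ']
      simp only [Finset.sum_add_distrib, ← Finset.mul_sum, mul_add, e1]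
      have e4 : ∑ a, ∑ b, ξ (X b (u t)) * ξ (X a (X a (X b (u t)))) =
          ∑ b, ξ (X b (u t)) * ξ (X b (C (u t))) := by
        rw [Finset.sum_comm]
        refine Finset.sum_congr rfl fun b _ => ?_
        rw [← Finset.mul_sum, e2]
      rw [e4]
      ring
    rw [e3] at hsum
    have h4 : 0 ≤ 4 * t * ∑ a, ∑ b, ξ (X a (X b (u t))) ^ 2 := by positivity
    linarith
  -- continuity
  have hΦc : Continuous fun p : ℝ × (F →L[ℝ] ℝ) => Φ p.1 p.2 := by
    have h1 : ∀ Y : F →L[ℝ] F, Continuous fun p : ℝ × (F →L[ℝ] ℝ) => p.2 (Y (u p.1)) := by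
      intro Y
      exact continuous_snd.clm_apply (Y.continuous.comp (hucont.comp continuous_fst))
    have h2 : Continuous fun p : ℝ × (F →L[ℝ] ℝ) => p.2 (u p.1) :=
      continuous_snd.clm_apply (hucont.comp continuous_fst)
    refine (h2.pow 2).add ((continuous_const.mul continuous_fst).mul ?_)
    exact continuous_finsetSum _ fun b _ => (h1 (X b)).pow 2
  have hΦ0 : ∀ ξ ∈ K, Φ 0 ξ ≤ ‖f‖ ^ 2 := by
    intro ξ hξ
    rw [hK, mem_closedBall_zero_iff] at hξ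
    simp only [hΦ, hu0, mul_zero, zero_mul, add_zero]
    rw [← sq_abs]
    apply pow_le_pow_left₀ (abs_nonneg _)
    rw [← Real.norm_eq_abs]
    calc ‖ξ f‖ ≤ ‖ξ‖ * ‖f‖ := ξ.le_opNorm f
      _ ≤ 1 * ‖f‖ := mul_le_mul_of_nonneg_right hξ (norm_nonneg _)
      _ = ‖f‖ := one_mul _
  have hmain : ∀ ξ ∈ K, Φ t0 ξ ≤ ‖f‖ ^ 2 := by
    intro ξ0 hξ0
    by_contra hcon
    push Not at hcon
    obtain ⟨ε, hε, hε2⟩ : ∃ ε > 0, ‖f‖ ^ 2 < Φ t0 ξ0 - ε * t0 := by
      refine ⟨(Φ t0 ξ0 - ‖f‖ ^ 2) / (2 * (t0 + 1)), div_pos (by linarith) (by positivity), ?_⟩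
      have h1 : (Φ t0 ξ0 - ‖f‖ ^ 2) / (2 * (t0 + 1)) * t0 ≤ (Φ t0 ξ0 - ‖f‖ ^ 2) / 2 := by
        rw [div_mul_eq_mul_div, div_le_div_iff₀ (by positivity) (by norm_num)]
        nlinarith
      linarith
    have hcomp : IsCompact (Icc (0 : ℝ) t0 ×ˢ K) := isCompact_Icc.prod hKc
    obtain ⟨⟨t1, ξ1⟩, ⟨ht1, hξ1⟩, hmx⟩ := hcomp.exists_isMaxOn
      ⟨(t0, ξ0), ⟨⟨ht0, le_rfl⟩, hξ0⟩⟩
      (f := fun p : ℝ × (F →L[ℝ] ℝ) => Φ p.1 p.2 - ε * p.1)
      (hΦc.sub (continuous_const.mul continuous_fst)).continuousOn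
    simp only at ht1 hξ1
    have hmx' : ∀ t ∈ Icc (0 : ℝ) t0, ∀ η ∈ K, Φ t η - ε * t ≤ Φ t1 ξ1 - ε * t1 :=
      fun t ht η hη => isMaxOn_iff.mp hmx (t, η) ⟨ht, hη⟩
    have hpos : 0 < t1 := by
      rcases ht1.1.eq_or_lt with h | h
      · exfalso
        have h1 := hmx' t0 ⟨ht0, le_rfl⟩ ξ0 hξ0
        rw [← h] at h1
        have h2 := hΦ0 ξ1 hξ1
        linarith
      · exact h
    have hneg : Φ' t1 ξ1 ≤ 0 := by
      refine hmax t1 ht1.1 ξ1 hξ1 fun η hη => ?_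
      have := hmx' t1 ht1 η hη
      linarith
    have hd : HasDerivAt (fun t => Φ t ξ1 - ε * t) (Φ' t1 ξ1 - ε) t1 := by
      have h1 : HasDerivAt (fun t : ℝ => ε * t) ε t1 := by
        simpa using (hasDerivAt_id t1).const_mul ε
      exact (hder t1 ξ1).sub h1
    have hslope : Tendsto (slope (fun t => Φ t ξ1 - ε * t) t1) (𝓝[<] t1) (𝓝 (Φ' t1 ξ1 - ε)) :=
      (hasDerivAt_iff_tendsto_slope.mp hd).mono_left
        (nhdsWithin_mono _ fun x hx => ne_of_lt hx)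
    have hev : ∀ᶠ t in 𝓝[<] t1, 0 ≤ slope (fun t => Φ t ξ1 - ε * t) t1 t := by
      have h1 : ∀ᶠ t in 𝓝[<] t1, 0 < t :=
        nhdsWithin_le_nhds (eventually_gt_nhds hpos)
      filter_upwards [h1, self_mem_nhdsWithin] with t ht0' ht1'
      have ht1'' : t < t1 := ht1'
      have h2 := hmx' t ⟨ht0'.le, ht1''.le.trans ht1.2⟩ ξ1 hξ1
      rw [slope_def_field]
      apply div_nonneg_of_nonpos
      · linarith
      · linarith
    have hge : 0 ≤ Φ' t1 ξ1 - ε := ge_of_tendsto hslope hev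
    linarith
  -- conclusion
  have hdual : ∀ (v : F) (c : ℝ), 0 ≤ c → (∀ ξ ∈ K, ξ v ^ 2 ≤ c ^ 2) → ‖v‖ ≤ c := by
    intro v c hc h
    obtain ⟨g, hg, hgv⟩ := exists_dual_vector'' ℝ v
    have h1 := h g (by rw [hK, mem_closedBall_zero_iff]; exact hg)
    rw [hgv] at h1
    exact (pow_le_pow_iff_left₀ (norm_nonneg _) hc two_ne_zero).mp h1
  have hsplit : ∀ ξ ∈ K, ξ (u t0) ^ 2 ≤ ‖f‖ ^ 2 ∧ ∀ b, 2 * t0 * ξ (X b (u t0)) ^ 2 ≤ ‖f‖ ^ 2 := by
    intro ξ hξ
    have h1 := hmain ξ hξ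
    simp only [hΦ] at h1
    have h2 : ∀ b, ξ (X b (u t0)) ^ 2 ≤ ∑ b, ξ (X b (u t0)) ^ 2 := fun b =>
      Finset.single_le_sum (f := fun b => ξ (X b (u t0)) ^ 2) (fun _ _ => sq_nonneg _)
        (Finset.mem_univ b)
    have h3 : 0 ≤ ∑ b, ξ (X b (u t0)) ^ 2 := Finset.sum_nonneg fun _ _ => sq_nonneg _
    constructor
    · have : 0 ≤ 2 * t0 * ∑ b, ξ (X b (u t0)) ^ 2 := by positivity
      linarith
    · intro b
      have h4 : 2 * t0 * ξ (X b (u t0)) ^ 2 ≤ 2 * t0 * ∑ b, ξ (X b (u t0)) ^ 2 :=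
        mul_le_mul_of_nonneg_left (h2 b) (by positivity)
      have h5 := sq_nonneg (ξ (u t0))
      linarith
  constructor
  · exact hdual _ _ (norm_nonneg _) fun ξ hξ => (hsplit ξ hξ).1
  · intro b
    rcases ht0.eq_or_lt with h | h
    · rw [← h]
      simp only [mul_zero, zero_mul]
      positivity
    · have h1 : ‖X b (u t0)‖ ≤ ‖f‖ / √(2 * t0) := by
        refine hdual _ _ (by positivity) fun ξ hξ => ?_
        rw [div_pow, Real.sq_sqrt (by positivity), le_div_iff₀ (by positivity)]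
        have := (hsplit ξ hξ).2 b
        linarith
      have h2 : ‖X b (u t0)‖ ^ 2 ≤ (‖f‖ / √(2 * t0)) ^ 2 :=
        pow_le_pow_left₀ (norm_nonneg _) h1 2
      rw [div_pow, Real.sq_sqrt (by positivity), le_div_iff₀ (by positivity)] at h2
      change 2 * t0 * ‖X b (u t0)‖ ^ 2 ≤ ‖f‖ ^ 2
      linarith

end Pool.Agent.RF.H3
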