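import Pool.Agent.Helper3_RF.Basic
import Pool.Agent.Helper3_RF.Bern

/-!
# Continuous one-parameter groups in finite dimension
-/

set_option maxSynthPendingDepth 3
set_option autoImplicit false

open Set Filter Topology MeasureTheory

namespace Pool.Agent.RF.H3

variable {V : Type} [NormedAddCommGroup V] [NormedSpace ℝ V] [FiniteDimensional ℝ V]

/-- orbits of a continuous one-parameter group in finite dimension are differentiable -/
theorem differentiableAt_orbit [CompleteSpace V] (G : ℝ → V →L[ℝ] V) (h0 : ∀ v, G 0 v = v)
    (hadd : ∀ s t v, G (s + t) v = G s (G t v)) (hc : ∀ v, Continuous fun s => G s v) (v : V) :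
    DifferentiableAt ℝ (fun s => G s v) 0 := by
  let D : Submodule ℝ V :=
    { carrier := {v | DifferentiableAt ℝ (fun s => G s v) 0}
      add_mem' := by
        intro a b ha hb
        simp only [mem_setOf_eq, map_add] at *
        exact ha.add hb
      zero_mem' := by
        simp only [mem_setOf_eq, map_zero]
        exact differentiableAt_const _
      smul_mem' := by
        intro c a ha
        simp only [mem_setOf_eq, map_smul] at *
        exact ha.const_smul c }
  have hint : ∀ h : ℝ, (∫ r in (0 : ℝ)..h, G r v) ∈ D := by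
    intro h
    change DifferentiableAt ℝ (fun s => G s (∫ r in (0 : ℝ)..h, G r v)) 0
    have e : (fun s => G s (∫ r in (0 : ℝ)..h, G r v)) =
        fun s => (∫ r in (0 : ℝ)..(s + h), G r v) - ∫ r in (0 : ℝ)..s, G r v := by
      funext s
      rw [← ContinuousLinearMap.intervalIntegral_comp_comm _ ((hc v).intervalIntegrable _ _)]
      have h1 : ∫ r in (0 : ℝ)..h, G s (G r v) = ∫ r in (0 : ℝ)..h, G (s + r) v := by
        simp only [hadd]
      rw [h1, intervalIntegral.integral_comp_add_left (fun r => G r v) s, add_zero]
      rw [intervalIntegral.integral_interval_sub_left ((hc v).intervalIntegrable _ _)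
        ((hc v).intervalIntegrable _ _)]
    rw [e]
    have h2 : ∀ b, HasDerivAt (fun s => ∫ r in (0 : ℝ)..s, G r v) (G b v) b := fun b =>
      ((hc v).integral_hasStrictDerivAt 0 b).hasDerivAt
    have h3 : HasDerivAt (fun s => ∫ r in (0 : ℝ)..(s + h), G r v) (G (0 + h) v) 0 :=
      HasDerivAt.comp_add_const 0 h (h2 (0 + h))
    exact (h3.sub (h2 0)).differentiableAt
  have hcl : IsClosed (D : Set V) := D.closed_of_finiteDimensional
  have hlim : Tendsto (fun h : ℝ => h⁻¹ • ∫ r in (0 : ℝ)..h, G r v) (𝓝[≠] 0) (𝓝 v) := by
    have h2 : HasDerivAt (fun s => ∫ r in (0 : ℝ)..s, G r v) (G 0 v) 0 :=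
      ((hc v).integral_hasStrictDerivAt 0 0).hasDerivAt
    rw [hasDerivAt_iff_tendsto_slope, h0] at h2
    refine h2.congr fun h => ?_
    simp [slope]
  have hv : v ∈ (D : Set V) :=
    hcl.mem_of_tendsto hlim (Eventually.of_forall fun h => D.smul_mem _ (hint h))
  exact hv

/-- a continuous one-parameter group in finite dimension is an exponential -/
theorem exists_generator [CompleteSpace V] (G : ℝ → V →L[ℝ] V) (h0 : ∀ v, G 0 v = v)
    (hadd : ∀ s t v, G (s + t) v = G s (G t v)) (hc : ∀ v, Continuous fun s => G s v) :
    ∃ X : V →L[ℝ] V, (∀ v, HasDerivAt (fun s => G s v) (X v) 0) ∧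
      ∀ s v, G s v = NormedSpace.exp (s • X) v := by
  have hd := differentiableAt_orbit G h0 hadd hc
  let L : V →ₗ[ℝ] V :=
    { toFun := fun v => deriv (fun s => G s v) 0
      map_add' := by
        intro a b
        simp only [map_add]
        exact deriv_fun_add (hd a) (hd b)
      map_smul' := by
        intro c a
        simp only [map_smul, RingHom.id_apply]
        exact deriv_fun_const_smul c (hd a) }
  let X : V →L[ℝ] V := LinearMap.toContinuousLinearMap L
  have hX : ∀ v, HasDerivAt (fun s => G s v) (X v) 0 := fun v => (hd v).hasDerivAt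
  have hXs : ∀ v s, HasDerivAt (fun s => G s v) (X (G s v)) s := by
    intro v s
    have h1 := hX (G s v)
    have h2 : (fun r => G r (G s v)) = fun r => G (r + s) v := by
      funext r; rw [hadd]
    rw [h2] at h1
    have h4 : HasDerivAt (fun r => G (r + s) v) (X (G s v)) (s - s) := by rwa [sub_self]
    have h5 := HasDerivAt.comp_sub_const s s h4
    refine h5.congr_of_eventuallyEq (Eventually.of_forall fun x => ?_)
    simp
  refine ⟨X, hX, fun s v => ?_⟩
  -- compare with the exponential
  have hE : ∀ s, HasDerivAt (fun s : ℝ => NormedSpace.exp ((-s) • X) (G s v)) 0 s := by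
    intro s
    have h1 : HasDerivAt (fun s : ℝ => NormedSpace.exp ((-s) • X))
        (-(NormedSpace.exp ((-s) • X) * X)) s := by
      have h2 := hasDerivAt_exp_smul_const (𝕂 := ℝ) X (-s)
      refine (h2.scomp s (hasDerivAt_neg' s)).congr_deriv ?_
      rw [neg_smul, one_smul]
    have h3 := h1.clm_apply (hXs v s)
    refine h3.congr_deriv ?_
    simp
  have hconst : ∀ s, NormedSpace.exp ((-s) • X) (G s v) = v := by
    intro s
    have h1 := is_const_of_deriv_eq_zero (f := fun s : ℝ => NormedSpace.exp ((-s) • X) (G s v))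
      (fun s => (hE s).differentiableAt) (fun s => (hE s).deriv) s 0
    simp only [h1]
    simp [h0]
  letI : NormedAlgebra ℚ (V →L[ℝ] V) := NormedAlgebra.restrictScalars ℚ ℝ (V →L[ℝ] V)
  have h1 : NormedSpace.exp (s • X) (NormedSpace.exp ((-s) • X) (G s v)) = G s v := by
    have h2 : NormedSpace.exp (s • X) * NormedSpace.exp ((-s) • X) = 1 := by
      rw [← NormedSpace.exp_add_of_commute (((Commute.refl X).smul_left s).smul_right (-s)),
        ← add_smul, add_neg_cancel, zero_smul, NormedSpace.exp_zero]
    have h3 := congrArg (fun L : V →L[ℝ] V => L (G s v)) h2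
    exact h3
  rw [hconst] at h1
  exact h1.symm

end Pool.Agent.RF.H3
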