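import Pool.Agent.Helper3_RF.FinDim

/-!
# The heat semigroup on finite vectors
-/

set_option maxSynthPendingDepth 3
set_option autoImplicit false

open Set Filter Topology MeasureTheory

namespace Pool.Agent.RF.H3

/-- solutions of a linear differential equation are exponentials -/
theorem eq_exp_of_hasDerivAt {W : Type} [NormedAddCommGroup W] [NormedSpace ℝ W] [CompleteSpace W]
    (B : W →L[ℝ] W) {u : ℝ → W} (hu : ∀ s, HasDerivAt u (B (u s)) s) (s : ℝ) :
    u s = NormedSpace.exp (s • B) (u 0) := by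
  have hE : ∀ s, HasDerivAt (fun s : ℝ => NormedSpace.exp ((-s) • B) (u s)) 0 s := by
    intro s
    have h1 : HasDerivAt (fun s : ℝ => NormedSpace.exp ((-s) • B))
        (-(NormedSpace.exp ((-s) • B) * B)) s := by
      have h2 := hasDerivAt_exp_smul_const (𝕂 := ℝ) B (-s)
      refine (h2.scomp s (hasDerivAt_neg' s)).congr_deriv ?_
      rw [neg_smul, one_smul]
    have h3 := h1.clm_apply (hu s)
    refine h3.congr_deriv ?_
    simp
  have hconst : NormedSpace.exp ((-s) • B) (u s) = u 0 := by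
    have h1 := is_const_of_deriv_eq_zero (f := fun s : ℝ => NormedSpace.exp ((-s) • B) (u s))
      (fun s => (hE s).differentiableAt) (fun s => (hE s).deriv) s 0
    simp only [h1]
    simp
  letI : NormedAlgebra ℚ (W →L[ℝ] W) := NormedAlgebra.restrictScalars ℚ ℝ (W →L[ℝ] W)
  have h1 : NormedSpace.exp (s • B) (NormedSpace.exp ((-s) • B) (u s)) = u s := by
    have h2 : NormedSpace.exp (s • B) * NormedSpace.exp ((-s) • B) = 1 := by
      rw [← NormedSpace.exp_add_of_commute (((Commute.refl B).smul_left s).smul_right (-s)),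
        ← add_smul, add_neg_cancel, zero_smul, NormedSpace.exp_zero]
    exact congrArg (fun L : W →L[ℝ] W => L (u s)) h2
  rw [hconst] at h1
  exact h1.symm

theorem hasDerivAt_exp_apply2 {W : Type} [NormedAddCommGroup W] [NormedSpace ℝ W]
    [CompleteSpace W] (X : W →L[ℝ] W) (v : W) (s : ℝ) :
    HasDerivAt (fun s : ℝ => NormedSpace.exp (s • X) v) (X (NormedSpace.exp (s • X) v)) s := by
  have h1 := hasDerivAt_exp_smul_const' (𝕂 := ℝ) X s
  exact (ContinuousLinearMap.apply ℝ W v).hasFDerivAt.comp_hasDerivAt s h1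

/-- intertwining -/
theorem exp_intertwine {V W : Type} [NormedAddCommGroup V] [NormedSpace ℝ V] [CompleteSpace V]
    [NormedAddCommGroup W] [NormedSpace ℝ W] [CompleteSpace W] (A : V →L[ℝ] V) (B : W →L[ℝ] W)
    (ι : V →L[ℝ] W) (h : ∀ v, ι (A v) = B (ι v)) (t : ℝ) (v : V) :
    ι (NormedSpace.exp (t • A) v) = NormedSpace.exp (t • B) (ι v) := by
  have h1 : ∀ s, HasDerivAt (fun s : ℝ => ι (NormedSpace.exp (s • A) v))
      (B (ι (NormedSpace.exp (s • A) v))) s := by
    intro s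
    rw [← h]
    exact ι.hasFDerivAt.comp_hasDerivAt s (hasDerivAt_exp_apply2 A v s)
  have h2 := eq_exp_of_hasDerivAt B h1 t
  simpa using h2

section
variable {𝓔 : Type} [NormedAddCommGroup 𝓔] [NormedSpace ℝ 𝓔] {Γ A : Type} [Fintype A]
variable (R : RotSys 𝓔 Γ A)

instance instFin (k : ℕ) : FiniteDimensional ℝ (R.F k) := R.F_fin k

instance instComplete (k : ℕ) : CompleteSpace (R.F k) := FiniteDimensional.complete ℝ (R.F k)

/-- the restriction of a group to a level -/
noncomputable def GT (k : ℕ) (g : Γ) (s : ℝ) : R.F k →L[ℝ] R.F k :=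
  LinearMap.toContinuousLinearMap
    ((R.T g s : 𝓔 →ₗ[ℝ] 𝓔).restrict fun f hf => R.F_inv k g s f hf)

theorem coe_GT (k : ℕ) (g : Γ) (s : ℝ) (f : R.F k) : (GT R k g s f : 𝓔) = R.T g s f := rfl

theorem exists_XL (k : ℕ) (g : Γ) : ∃ X : R.F k →L[ℝ] R.F k,
    (∀ v, HasDerivAt (fun s => GT R k g s v) (X v) 0) ∧
      ∀ s v, GT R k g s v = NormedSpace.exp (s • X) v := by
  refine exists_generator (GT R k g) ?_ ?_ ?_
  · intro v
    apply Subtype.ext
    rw [coe_GT, R.T_zero]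
  · intro s t v
    apply Subtype.ext
    rw [coe_GT, coe_GT, coe_GT, R.T_add]
  · intro v
    exact (R.cont_T g v).subtype_mk _

/-- the generator on a level -/
noncomputable def XL (k : ℕ) (g : Γ) : R.F k →L[ℝ] R.F k := (exists_XL R k g).choose

theorem hasGen_XL (k : ℕ) (g : Γ) (v : R.F k) : R.HasGen g (v : 𝓔) (XL R k g v : 𝓔) := by
  have h1 := (exists_XL R k g).choose_spec.1 v
  exact (R.F k).subtypeL.hasFDerivAt.comp_hasDerivAt (0 : ℝ) h1

theorem GT_eq (k : ℕ) (g : Γ) (s : ℝ) (v : R.F k) :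
    GT R k g s v = NormedSpace.exp (s • XL R k g) v := (exists_XL R k g).choose_spec.2 s v

theorem XL_lin (k : ℕ) (g : Γ) (v : R.F k) : XL R k g v = ∑ a, R.c g a • XL R k (R.J a) v := by
  apply Subtype.ext
  have h1 := R.X_lin k v v.2 g
  rw [(hasGen_XL R k g v).deriv] at h1
  simp only [(hasGen_XL R k (R.J _) v).deriv] at h1
  rw [h1]
  simp

/-- the Casimir operator on a level -/
noncomputable def CL (k : ℕ) : R.F k →L[ℝ] R.F k := ∑ a, XL R k (R.J a) * XL R k (R.J a)

theorem CL_apply (k : ℕ) (v : R.F k) :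
    CL R k v = ∑ a, XL R k (R.J a) (XL R k (R.J a) v) := by
  unfold CL
  rw [sum_apply]
  rfl

theorem CL_comm (k : ℕ) (b : A) (v : R.F k) :
    CL R k (XL R k (R.J b) v) = XL R k (R.J b) (CL R k v) := by
  apply Subtype.ext
  have h1 := R.casimir k v v.2 b
  simp only [(hasGen_XL R k (R.J _) _).deriv] at h1
  have h2 : (∑ a, ((XL R k (R.J a) (XL R k (R.J a) v) : R.F k) : 𝓔)) = (CL R k v : 𝓔) := by
    rw [CL_apply]; simp
  rw [h2, (hasGen_XL R k (R.J b) _).deriv] at h1
  rw [h1, CL_apply]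
  simp

theorem CL_comm' (k : ℕ) (g : Γ) (v : R.F k) :
    CL R k (XL R k g v) = XL R k g (CL R k v) := by
  rw [XL_lin, XL_lin, map_sum]
  refine Finset.sum_congr rfl fun a _ => ?_
  rw [map_smul, CL_comm]

/-- the heat semigroup on a level -/
noncomputable def SL (k : ℕ) (t : ℝ) : R.F k →L[ℝ] R.F k := NormedSpace.exp (t • CL R k)

theorem SL_zero (k : ℕ) (v : R.F k) : SL R k 0 v = v := by simp [SL]

theorem hasDerivAt_SL (k : ℕ) (v : R.F k) (t : ℝ) :
    HasDerivAt (fun t => SL R k t v) (CL R k (SL R k t v)) t :=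
  hasDerivAt_exp_apply2 (CL R k) v t

theorem SL_XL (k : ℕ) (g : Γ) (t : ℝ) (v : R.F k) :
    XL R k g (SL R k t v) = SL R k t (XL R k g v) :=
  exp_intertwine (CL R k) (CL R k) (XL R k g) (fun v => (CL_comm' R k g v).symm) t v

theorem SL_CL (k : ℕ) (t : ℝ) (v : R.F k) :
    CL R k (SL R k t v) = SL R k t (CL R k v) :=
  exp_intertwine (CL R k) (CL R k) (CL R k) (fun v => rfl) t v

theorem SL_add (k : ℕ) (s t : ℝ) (v : R.F k) : SL R k (s + t) v = SL R k s (SL R k t v) := by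
  have h1 : ∀ s, HasDerivAt (fun s => SL R k (s + t) v) (CL R k (SL R k (s + t) v)) s :=
    fun s => HasDerivAt.comp_add_const s t (hasDerivAt_SL R k v (s + t))
  have h2 := eq_exp_of_hasDerivAt (CL R k) h1 s
  simp only [zero_add] at h2
  exact h2

theorem GT_SL (k : ℕ) (g : Γ) (s t : ℝ) (v : R.F k) :
    GT R k g s (SL R k t v) = SL R k t (GT R k g s v) := by
  rw [GT_eq, GT_eq]
  exact (exp_intertwine (XL R k g) (XL R k g) (SL R k t) (fun v => (SL_XL R k g t v).symm) s v).symm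

theorem bern_level (k : ℕ) (t : ℝ) (ht : 0 ≤ t) (v : R.F k) :
    ‖SL R k t v‖ ≤ ‖v‖ ∧ ∀ b, 2 * t * ‖XL R k (R.J b) (SL R k t v)‖ ^ 2 ≤ ‖v‖ ^ 2 := by
  refine bernstein (R.F k) A (fun a => XL R k (R.J a)) ?_ ?_ t ht v
  · intro a s f
    rw [← GT_eq]
    exact R.norm_T _ _ _
  · intro b
    exact ContinuousLinearMap.ext fun v => CL_comm R k b v

/-- the inclusion of levels -/
noncomputable def incl {j k : ℕ} (h : j ≤ k) : R.F j →L[ℝ] R.F k :=
  LinearMap.toContinuousLinearMap (Submodule.inclusion (R.F_mono h))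

theorem coe_incl {j k : ℕ} (h : j ≤ k) (v : R.F j) : (incl R h v : 𝓔) = v := rfl

theorem incl_XL {j k : ℕ} (h : j ≤ k) (g : Γ) (v : R.F j) :
    incl R h (XL R j g v) = XL R k g (incl R h v) := by
  apply Subtype.ext
  exact hasGen_unique (hasGen_XL R j g v) (hasGen_XL R k g (incl R h v))

theorem incl_CL {j k : ℕ} (h : j ≤ k) (v : R.F j) :
    incl R h (CL R j v) = CL R k (incl R h v) := by
  rw [CL_apply, CL_apply, map_sum]
  refine Finset.sum_congr rfl fun a _ => ?_
  rw [incl_XL, incl_XL]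

theorem incl_SL {j k : ℕ} (h : j ≤ k) (t : ℝ) (v : R.F j) :
    incl R h (SL R j t v) = SL R k t (incl R h v) :=
  exp_intertwine (CL R j) (CL R k) (incl R h) (incl_CL R h) t v

/-- extension of a consistent family of bounded operators -/
theorem exists_extension [CompleteSpace 𝓔] (L : ∀ k, R.F k →ₗ[ℝ] 𝓔)
    (hcons : ∀ j k, ∀ h : j ≤ k, ∀ v : R.F j, L k (incl R h v) = L j v) (M : ℝ)
    (hM : ∀ k v, ‖L k v‖ ≤ M * ‖v‖) :
    ∃ S : 𝓔 →L[ℝ] 𝓔, (∀ k (v : R.F k), S v = L k v) ∧ ∀ f, ‖S f‖ ≤ M * ‖f‖ := by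
  have hdir : Directed (· ≤ ·) R.F := directed_of_isDirected_le R.F_mono
  set U : Submodule ℝ 𝓔 := ⨆ k, R.F k with hU
  have hmem : ∀ u : U, ∃ k, (u : 𝓔) ∈ R.F k := fun u =>
    (Submodule.mem_iSup_of_directed R.F hdir).mp u.2
  choose κ hκ using hmem
  have hwd : ∀ j k (f : 𝓔) (hj : f ∈ R.F j) (hk : f ∈ R.F k), L j ⟨f, hj⟩ = L k ⟨f, hk⟩ := by
    intro j k f hj hk
    have h1 := hcons j (max j k) (le_max_left _ _) ⟨f, hj⟩
    have h2 := hcons k (max j k) (le_max_right _ _) ⟨f, hk⟩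
    rw [← h1, ← h2]
    rfl
  let LU : U →ₗ[ℝ] 𝓔 :=
    { toFun := fun u => L (κ u) ⟨u, hκ u⟩
      map_add' := by
        intro u v
        set n := max (κ (u + v)) (max (κ u) (κ v)) with hn
        have hu : (u : 𝓔) ∈ R.F n :=
          R.F_mono ((le_max_left _ _).trans (le_max_right _ _)) (hκ u)
        have hv : (v : 𝓔) ∈ R.F n :=
          R.F_mono ((le_max_right _ _).trans (le_max_right _ _)) (hκ v)
        have huv : ((u + v : U) : 𝓔) ∈ R.F n := R.F_mono (le_max_left _ _) (hκ (u + v))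
        rw [hwd _ n _ (hκ (u + v)) huv, hwd _ n _ (hκ u) hu, hwd _ n _ (hκ v) hv, ← map_add]
        rfl
      map_smul' := by
        intro c u
        set n := max (κ (c • u)) (κ u) with hn
        have hu : (u : 𝓔) ∈ R.F n := R.F_mono (le_max_right _ _) (hκ u)
        have hcu : ((c • u : U) : 𝓔) ∈ R.F n := R.F_mono (le_max_left _ _) (hκ (c • u))
        rw [hwd _ n _ (hκ (c • u)) hcu, hwd _ n _ (hκ u) hu, RingHom.id_apply, ← map_smul]
        rfl }
  let LC : U →L[ℝ] 𝓔 := LU.mkContinuous M fun u => hM _ _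
  have hdense : DenseRange (U.subtypeL : U → 𝓔) := by
    have h1 : range (U.subtypeL : U → 𝓔) = ⋃ k, (R.F k : Set 𝓔) := by
      rw [← Submodule.coe_iSup_of_directed R.F hdir]
      simp [hU]
    rw [DenseRange, h1]
    exact R.F_dense
  have hUI : IsUniformInducing (U.subtypeL : U → 𝓔) :=
    isUniformEmbedding_subtype_val.isUniformInducing
  refine ⟨LC.extend U.subtypeL, ?_, ?_⟩
  · intro k v
    have hv : (v : 𝓔) ∈ U := (le_iSup R.F k) v.2
    have h1 := LC.extend_eq hdense hUI ⟨v, hv⟩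
    have h2 : LC ⟨v, hv⟩ = L k v := hwd _ k _ _ v.2
    rw [← h2, ← h1]
    rfl
  · have hcl : IsClosed {f : 𝓔 | ‖LC.extend U.subtypeL f‖ ≤ M * ‖f‖} :=
      isClosed_le (by fun_prop) (by fun_prop)
    intro f
    refine hdense.induction_on (p := fun f => ‖LC.extend U.subtypeL f‖ ≤ M * ‖f‖) f hcl ?_
    intro u
    rw [LC.extend_eq hdense hUI]
    exact hM _ _

end

end Pool.Agent.RF.H3
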